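import Mathlib

/-!
# ALLC metric spaces homeomorphic to domains of the sphere: definitions

A metric space is considered as a subset `X` of a complete metric space `P`; its completion is
then `closure X`, and its metric boundary is `closure X \ X`.
-/

set_option autoImplicit false

open Set Metric

namespace Pool.Agent.N283.AL

/-- `X` (with the subspace topology) is homeomorphic to a domain (a connected, nonempty, open
subset) of the unit sphere of `ℝ³` -/
def IsSphereDomain {P : Type} [TopologicalSpace P] (X : Set P) : Prop :=
  ∃ U : Set (sphere (0 : EuclideanSpace ℝ (Fin 3)) 1),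
    IsOpen U ∧ IsConnected U ∧ Nonempty (X ≃ₜ U)

/-- `X` is `lam`-annularly linearly locally connected -/
def ALLC {P : Type} [MetricSpace P] (X : Set P) (lam : ℝ) : Prop :=
  ∀ a ∈ X, ∀ r R : ℝ, 0 < r → r < R → ∀ x ∈ X, ∀ y ∈ X,
    r ≤ dist a x → dist a x ≤ R → r ≤ dist a y → dist a y ≤ R →
    ∃ K : Set P, K ⊆ X ∧ IsCompact K ∧ IsConnected K ∧ x ∈ K ∧ y ∈ K ∧
      ∀ z ∈ K, r / lam ≤ dist a z ∧ dist a z ≤ lam * R

/-- the metric boundary of `X`: the complement of `X` in its completion -/
def bdry {P : Type} [TopologicalSpace P] (X : Set P) : Set P := closure X \ X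

/-- `E` is a connected component of the metric boundary of `X` -/
def IsBdryComponent {P : Type} [TopologicalSpace P] (X E : Set P) : Prop :=
  ∃ p ∈ bdry X, E = connectedComponentIn (bdry X) p

end Pool.Agent.N283.AL
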