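import Pool.Agent.Helper240.ZFM.C1
import Pool.Agent.Helper240.ZFM.C2
import Pool.Agent.Helper240.ZFM.C4
import Pool.Agent.Helper486.Topo2

/-!
# Continuous logarithms on compact sets with connected complement
-/

set_option autoImplicit false

open Set Topology Metric Filter

namespace Pool.Agent.N283.AL

/-- Continuous logarithms on convex sets. -/
theorem exists_log_on_convex {E : Type*} [NormedAddCommGroup E] [NormedSpace ℝ E] {S : Set E}
    (hS : Convex ℝ S) {a : E} (ha : a ∈ S) {h : E → ℂ} (hc : ContinuousOn h S)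
    (h0 : ∀ x ∈ S, h x ≠ 0) :
    ∃ g : E → ℂ, ContinuousOn g S ∧ ∀ x ∈ S, Complex.exp (g x) = h x := by
  classical
  have := hS.contractibleSpace ⟨a, ha⟩
  have := hS.locallyPathConnectedSpace
  rcases Complex.isCoveringMapOn_exp.existsUnique_continuousMap_lifts
    ⟨S.domRestrict h, continuousOn_iff_continuous_domRestrict.mp hc⟩ (a₀ := ⟨a, ha⟩)
    (e₀ := Complex.log (h a))
    (by simpa using Complex.exp_log (h0 a ha)) (fun x ↦ by simpa using h0 x x.2) with
      ⟨f, ⟨hf0, hf⟩, -⟩
  refine ⟨fun z ↦ if hz : z ∈ S then f ⟨z, hz⟩ else 0, ?_, ?_⟩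
  · rw [continuousOn_iff_continuous_domRestrict]
    convert! map_continuous f
    ext z
    simp
  · intro x hx
    have := congrFun hf ⟨x, hx⟩
    simp only [hx, dif_pos]
    simpa using this

/-- logarithm on a bounded component with primitives -/
lemma log_comp {V : Set ℂ} (hV : IsOpen V) (hVc : IsConnected V) (hne : V ≠ univ)
    (hp : ∀ f : ℂ → ℂ, DifferentiableOn ℂ f V → ∃ F : ℂ → ℂ, ∀ z ∈ V, HasDerivAt F (f z) z)
    {f : ℂ → ℂ} (hf : ContinuousOn f V) (h0 : ∀ z ∈ V, f z ≠ 0) :
    ∃ g : ℂ → ℂ, ContinuousOn g V ∧ ∀ z ∈ V, Complex.exp (g z) = f z := by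
  obtain ⟨g, φ, hg, hgb, -, hφ, hφm, hgφ, -⟩ := ZFM.riemann_prim hV hVc hne hp
  have hfg : ContinuousOn (fun w => f (g w)) (ball (0 : ℂ) 1) :=
    hf.comp hg.continuousOn hgb.mapsTo
  obtain ⟨l, hl, hle⟩ := exists_log_on_convex (convex_ball (0 : ℂ) 1) (mem_ball_self one_pos) hfg
    (fun w hw => h0 _ (hgb.mapsTo hw))
  refine ⟨fun z => l (φ z), hl.comp hφ.continuousOn hφm, fun z hz => ?_⟩
  rw [hle _ (hφm hz), hgφ z hz]

/-- logarithm on a bounded open set with the hull property -/
lemma log_good {V : Set ℂ} (hV : IsOpen V) (hb : Bornology.IsBounded V)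
    (hg : ∀ L ⊆ V, IsCompact L → ∃ L' ⊆ V, L ⊆ L' ∧ IsCompact L' ∧ IsConnected L'ᶜ)
    {f : ℂ → ℂ} (hf : ContinuousOn f V) (h0 : ∀ z ∈ V, f z ≠ 0) :
    ∃ g : ℂ → ℂ, ContinuousOn g V ∧ ∀ z ∈ V, Complex.exp (g z) = f z := by
  classical
  have key : ∀ c : Set ℂ, ∃ g : ℂ → ℂ, (∃ z ∈ V, c = connectedComponentIn V z) →
      ContinuousOn g c ∧ ∀ z ∈ c, Complex.exp (g z) = f z := by
    intro c
    by_cases hc : ∃ z ∈ V, c = connectedComponentIn V z
    · obtain ⟨z, hz, rfl⟩ := hc
      have hsub : connectedComponentIn V z ⊆ V := connectedComponentIn_subset _ _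
      have hop : IsOpen (connectedComponentIn V z) := hV.connectedComponentIn
      have hcon : IsConnected (connectedComponentIn V z) := isConnected_connectedComponentIn_iff.2 hz
      have hne : connectedComponentIn V z ≠ univ := by
        intro h
        have h1 : Bornology.IsBounded (univ : Set ℂ) := h ▸ hb.subset hsub
        exact NormedSpace.unbounded_univ ℝ ℂ h1
      obtain ⟨g, h1, h2⟩ := log_comp hop hcon hne (fun u hu => by
        have hd : DifferentiableOn ℂ (fun w => if w ∈ connectedComponentIn V z then u w else 0)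
            V := by
          intro w hw
          by_cases hwc : w ∈ connectedComponentIn V z
          · have h1 : DifferentiableAt ℂ u w := (hu w hwc).differentiableAt (hop.mem_nhds hwc)
            refine (h1.congr_of_eventuallyEq ?_).differentiableWithinAt
            filter_upwards [hop.mem_nhds hwc] with t ht
            simp [ht]
          · have hop2 : IsOpen (connectedComponentIn V w) := hV.connectedComponentIn
            refine ((differentiableAt_const (0 : ℂ)).congr_of_eventuallyEq
              ?_).differentiableWithinAt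
            filter_upwards [hop2.mem_nhds (mem_connectedComponentIn hw)] with t ht
            have : t ∉ connectedComponentIn V z := by
              intro h
              apply hwc
              rw [connectedComponentIn_eq h, ← connectedComponentIn_eq ht]
              exact mem_connectedComponentIn hw
            simp [this]
        obtain ⟨F, hF⟩ := ZFM.J_c2.primitive_of_good hV hg _ hd
        refine ⟨F, fun w hw => ?_⟩
        have := hF w (hsub hw)
        simpa [hw] using this) (hf.mono hsub) (fun w hw => h0 w (hsub hw))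
      exact ⟨g, fun _ => ⟨h1, h2⟩⟩
    · exact ⟨0, fun h => absurd h hc⟩
  choose g hg using key
  refine ⟨fun z => g (connectedComponentIn V z) z, ?_, fun z hz => ?_⟩
  · intro z hz
    have hop : IsOpen (connectedComponentIn V z) := hV.connectedComponentIn
    have h1 : ContinuousAt (g (connectedComponentIn V z)) z :=
      ((hg _ ⟨z, hz, rfl⟩).1).continuousAt (hop.mem_nhds (mem_connectedComponentIn hz))
    refine (h1.congr ?_).continuousWithinAt
    filter_upwards [hop.mem_nhds (mem_connectedComponentIn hz)] with t ht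
    rw [connectedComponentIn_eq ht]
  · exact (hg _ ⟨z, hz, rfl⟩).2 z (mem_connectedComponentIn hz)

/-- continuous logarithms on compact plane sets with connected complement -/
theorem log_compact {K : Set ℂ} (hK : IsCompact K) (hKc : IsConnected Kᶜ) {f : ℂ → ℂ}
    (hf : ContinuousOn f K) (h0 : ∀ z ∈ K, f z ≠ 0) :
    ∃ g : ℂ → ℂ, ContinuousOn g K ∧ ∀ z ∈ K, Complex.exp (g z) = f z := by
  obtain ⟨F, hF⟩ := ContinuousMap.exists_restrict_eq hK.isClosed
    ⟨K.domRestrict f, continuousOn_iff_continuous_domRestrict.1 hf⟩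
  have hFf : ∀ z ∈ K, F z = f z := by
    intro z hz
    exact DFunLike.congr_fun hF ⟨z, hz⟩
  have hO : IsOpen {z | F z ≠ 0} := isOpen_ne_fun F.continuous continuous_const
  have hKO : K ⊆ {z | F z ≠ 0} := fun z hz => by
    simp only [Set.mem_ofPred_eq, hFf z hz]; exact h0 z hz
  obtain ⟨V, hV, hKV, hVO, -, hb, hg⟩ := ZFM.J_c1.good_nbhd hK hKc hO hKO
    (S := ∅) Set.finite_empty (by simp)
  obtain ⟨g, h1, h2⟩ := log_good hV hb hg F.continuous.continuousOn (fun z hz => hVO hz)
  exact ⟨g, h1.mono hKV, fun z hz => by rw [h2 z (hKV hz), hFf z hz]⟩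

open Pool.Agent.Helper486.Topo

/-- continuous logarithms on closed proper subsets of the sphere with connected complement -/
theorem log_sphere {L : Set S2} (hL : IsClosed L) (hLc : IsConnected Lᶜ) {f : S2 → ℂ}
    (hf : ContinuousOn f L) (h0 : ∀ z ∈ L, f z ≠ 0) :
    ∃ g : S2 → ℂ, ContinuousOn g L ∧ ∀ z ∈ L, Complex.exp (g z) = f z := by
  obtain ⟨m, hm⟩ := hLc.nonempty
  set e := chartC m with he
  have hsrc : e.source = {m}ᶜ := chartC_source m
  have htar : e.target = univ := chartC_target m
  have hec : Continuous e.symm := by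
    rw [← continuousOn_univ, ← htar]; exact e.continuousOn_symm
  have hLs : L ⊆ e.source := by
    intro z hz
    rw [hsrc]
    rintro rfl
    exact hm hz
  have hsymm : ∀ w : ℂ, e.symm w ∈ e.source := fun w => e.map_target (by rw [htar]; trivial)
  have hr : ∀ w : ℂ, e (e.symm w) = w := fun w => e.right_inv (by rw [htar]; trivial)
  have hKcomp : IsCompact (e '' L) := hL.isCompact.image_of_continuousOn (e.continuousOn.mono hLs)
  obtain ⟨ρ, hρ⟩ := hKcomp.isBounded.subset_closedBall (0 : ℂ)
  set M := max ρ 0 with hM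
  have hfar : {z : ℂ | M < ‖z‖} ⊆ (e '' L)ᶜ := by
    intro z hz hz'
    have := hρ hz'
    rw [mem_closedBall_zero_iff] at this
    have h2 : M < ‖z‖ := hz
    exact absurd (lt_of_le_of_lt (le_max_left ρ 0) h2) (not_lt.2 this)
  have hpre : IsPreconnected {z : ℂ | M < ‖z‖} := ZFM.J_c1.gn_ext M (le_max_right _ _)
  have hmem : ∀ w : ℂ, w ∈ e '' L ↔ e.symm w ∈ L := by
    intro w
    constructor
    · rintro ⟨z, hz, rfl⟩
      rw [e.left_inv (hLs hz)]; exact hz
    · intro h
      exact ⟨_, h, hr w⟩
  have hKo : IsOpen (e '' L)ᶜ := hKcomp.isClosed.isOpen_compl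
  -- every component of the complement meets the far region
  have hmeet : ∀ w ∈ (e '' L)ᶜ, ∃ v ∈ connectedComponentIn (e '' L)ᶜ w, M < ‖v‖ := by
    intro w hw
    by_contra hcon
    push Not at hcon
    set Q := connectedComponentIn (e '' L)ᶜ w with hQ
    have hQo : IsOpen Q := hKo.connectedComponentIn
    have hwQ : w ∈ Q := mem_connectedComponentIn hw
    -- the preimage of Q
    have hA : IsOpen (e.source ∩ e ⁻¹' Q) := e.isOpen_inter_preimage hQo
    -- the complement of the closure of Q, plus m
    have hclQ : IsCompact (closure Q) := by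
      refine (isCompact_closedBall (0 : ℂ) M).of_isClosed_subset isClosed_closure ?_
      refine closure_minimal ?_ isClosed_closedBall
      intro v hv
      rw [mem_closedBall_zero_iff]; exact hcon v hv
    have hB : IsOpen (e.symm '' (closure Q))ᶜ :=
      (hclQ.image hec).isClosed.isOpen_compl
    have hsub : Lᶜ ⊆ (e.source ∩ e ⁻¹' Q) ∪ (e.symm '' (closure Q))ᶜ := by
      intro z hz
      by_cases h : z ∈ e.symm '' (closure Q)
      · left
        obtain ⟨v, hv, rfl⟩ := h
        refine ⟨hsymm v, ?_⟩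
        rw [mem_preimage, hr v]
        have hvK : v ∈ (e '' L)ᶜ := fun h' => hz ((hmem v).1 h')
        have hQv : IsOpen (connectedComponentIn (e '' L)ᶜ v) := hKo.connectedComponentIn
        obtain ⟨t, ht1, ht2⟩ := mem_closure_iff.1 hv _ hQv (mem_connectedComponentIn hvK)
        rw [hQ, connectedComponentIn_eq ht2, ← connectedComponentIn_eq ht1]
        exact mem_connectedComponentIn hvK
      · right; exact h
    have h1 : (Lᶜ ∩ (e.source ∩ e ⁻¹' Q)).Nonempty := by
      refine ⟨e.symm w, fun h => hw ((hmem w).2 h), hsymm w, ?_⟩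
      rw [mem_preimage, hr w]; exact hwQ
    have h2 : (Lᶜ ∩ (e.symm '' (closure Q))ᶜ).Nonempty := by
      refine ⟨m, hm, ?_⟩
      rintro ⟨v, -, hv⟩
      have := hsymm v
      rw [hv, hsrc] at this
      exact this rfl
    obtain ⟨z, -, ⟨hz1, hz2⟩, hz3⟩ := hLc.isPreconnected _ _ hA hB hsub h1 h2
    exact hz3 ⟨e z, subset_closure hz2, e.left_inv hz1⟩
  have hconn : IsConnected (e '' L)ᶜ := by
    obtain ⟨v0, hv0⟩ : ∃ v0 : ℂ, M < ‖v0‖ := by
      refine ⟨((M + 1 : ℝ) : ℂ), ?_⟩
      rw [Complex.norm_real, Real.norm_of_nonneg (by positivity)]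
      linarith
    refine ⟨⟨v0, hfar hv0⟩, ?_⟩
    have hall : ∀ w ∈ (e '' L)ᶜ, w ∈ connectedComponentIn (e '' L)ᶜ v0 := by
      intro w hw
      obtain ⟨v, hv, hvM⟩ := hmeet w hw
      have h1 : v ∈ connectedComponentIn (e '' L)ᶜ v0 :=
        hpre.subset_connectedComponentIn hv0 hfar hvM
      rw [connectedComponentIn_eq h1, ← connectedComponentIn_eq hv]
      exact mem_connectedComponentIn hw
    have : (e '' L)ᶜ = connectedComponentIn (e '' L)ᶜ v0 :=
      Subset.antisymm hall (connectedComponentIn_subset _ _)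
    rw [this]
    exact isPreconnected_connectedComponentIn
  obtain ⟨g, hg1, hg2⟩ := log_compact hKcomp hconn (f := fun w => f (e.symm w))
    (hf.comp hec.continuousOn (fun w hw => (hmem w).1 hw))
    (fun w hw => h0 _ ((hmem w).1 hw))
  refine ⟨fun z => g (e z), hg1.comp (e.continuousOn.mono hLs) (mapsTo_image _ _), fun z hz => ?_⟩
  rw [hg2 _ (mem_image_of_mem _ hz), e.left_inv (hLs hz)]

end Pool.Agent.N283.AL
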