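import Pool.Agent.N283.AL.Top
import Pool.Agent.N283.AL.Defs

/-!
# Metric lemmas for ALLC sets homeomorphic to domains of the sphere
-/

set_option autoImplicit false

open Set Topology Metric Filter

namespace Pool.Agent.N283.AL

open Pool.Agent.Helper486.Topo

/-- a homeomorphism with a domain of the sphere, given by total functions -/
structure Dat {P : Type} [MetricSpace P] (X : Set P) where
  U : Set S2
  h : P → S2
  k : S2 → P
  hU : IsOpen U
  hUc : IsConnected U
  hc : ContinuousOn h X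
  hm : MapsTo h X U
  kc : ContinuousOn k U
  km : MapsTo k U X
  kh : ∀ x ∈ X, k (h x) = x
  hk : ∀ z ∈ U, h (k z) = z

lemma exists_dat {P : Type} [MetricSpace P] {X : Set P} (hX : IsSphereDomain X) :
    Nonempty (Dat X) := by
  classical
  obtain ⟨U, hU, hUc, ⟨e⟩⟩ := hX
  obtain ⟨z0, hz0⟩ := hUc.nonempty
  refine ⟨⟨U, fun x => if hx : x ∈ X then (e ⟨x, hx⟩ : S2) else z0,
    fun z => if hz : z ∈ U then (e.symm ⟨z, hz⟩ : P) else (e.symm ⟨z0, hz0⟩ : P), hU, hUc,
    ?_, ?_, ?_, ?_, ?_, ?_⟩⟩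
  · rw [continuousOn_iff_continuous_domRestrict]
    have : X.domRestrict (fun x => if hx : x ∈ X then (e ⟨x, hx⟩ : S2) else z0) =
        fun x : X => ((e x : U) : S2) := by
      funext x
      simp
    rw [this]
    fun_prop
  · intro x hx
    simp only [hx, dif_pos]
    exact (e ⟨x, hx⟩).2
  · rw [continuousOn_iff_continuous_domRestrict]
    have : U.domRestrict (fun z => if hz : z ∈ U then (e.symm ⟨z, hz⟩ : P)
        else (e.symm ⟨z0, hz0⟩ : P)) = fun z : U => ((e.symm z : X) : P) := by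
      funext z
      simp
    rw [this]
    fun_prop
  · intro z hz
    simp only [hz, dif_pos]
    exact (e.symm ⟨z, hz⟩).2
  · intro x hx
    simp [hx]
  · intro z hz
    simp [hz]

section

variable {P : Type} [MetricSpace P] {X : Set P} (D : Dat X)

/-- the image of `X ∩ O` -/
def Dat.im (O : Set P) : Set S2 := D.U ∩ D.k ⁻¹' O

lemma Dat.im_open {O : Set P} (hO : IsOpen O) : IsOpen (D.im O) :=
  D.kc.isOpen_inter_preimage D.hU hO

lemma Dat.mem_im {O : Set P} {x : P} (hx : x ∈ X) (hxO : x ∈ O) : D.h x ∈ D.im O := by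
  refine ⟨D.hm hx, ?_⟩
  rw [mem_preimage, D.kh x hx]; exact hxO

lemma Dat.im_eq (O : Set P) : D.im O = D.h '' (X ∩ O) := by
  ext z
  constructor
  · rintro ⟨hz, hzO⟩
    exact ⟨D.k z, ⟨D.km hz, hzO⟩, D.hk z hz⟩
  · rintro ⟨x, ⟨hx, hxO⟩, rfl⟩
    exact D.mem_im hx hxO

lemma Dat.im_mono {O O' : Set P} (h : O ⊆ O') : D.im O ⊆ D.im O' :=
  inter_subset_inter_right _ (preimage_mono h)

include D in
lemma Dat.isConnected : IsConnected X := by
  have : X = D.k '' D.U := by
    ext x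
    constructor
    · intro hx; exact ⟨D.h x, D.hm hx, D.kh x hx⟩
    · rintro ⟨z, hz, rfl⟩; exact D.km hz
  rw [this]
  exact D.hUc.image _ D.kc

include D in
/-- `X` is open in its closure -/
lemma Dat.locally {x : P} (hx : x ∈ X) : ∃ ε > 0, closure X ∩ ball x ε ⊆ X := by
  obtain ⟨N, hN, hNc, hNU⟩ := exists_mem_nhds_isClosed_subset (D.hU.mem_nhds (D.hm hx))
  have hcomp : IsCompact (D.k '' N) := hNc.isCompact.image_of_continuousOn (D.kc.mono hNU)
  have h1 : D.h ⁻¹' N ∈ 𝓝[X] x := (D.hc x hx) hN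
  obtain ⟨ε, hε, h2⟩ := Metric.mem_nhdsWithin_iff.1 h1
  refine ⟨ε, hε, ?_⟩
  rintro y ⟨hy, hyb⟩
  have h3 : y ∈ closure (D.k '' N) := by
    rw [_root_.mem_closure_iff]
    intro O hO hyO
    obtain ⟨t, ht1, ht2⟩ := _root_.mem_closure_iff.1 hy _ (hO.inter isOpen_ball) ⟨hyO, hyb⟩
    refine ⟨t, ht1.1, D.h t, h2 ⟨ht1.2, ht2⟩, D.kh t ht2⟩
  rw [hcomp.isClosed.closure_eq] at h3
  obtain ⟨z, hz, rfl⟩ := h3
  exact D.km (hNU hz)

include D in
lemma Dat.bdry_closed : IsClosed (bdry X) := by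
  rw [← isOpen_compl_iff, isOpen_iff_mem_nhds]
  intro y hy
  by_cases hyc : y ∈ closure X
  · have hyX : y ∈ X := by
      by_contra h
      exact hy ⟨hyc, h⟩
    obtain ⟨ε, hε, h1⟩ := D.locally hyX
    filter_upwards [ball_mem_nhds y hε] with t ht
    rintro ⟨h2, h3⟩
    exact h3 (h1 ⟨h2, ht⟩)
  · filter_upwards [isClosed_closure.isOpen_compl.mem_nhds hyc] with t ht
    rintro ⟨h2, -⟩
    exact ht h2

instance : Nontrivial S2 := by
  obtain ⟨p, hp⟩ := exists_ne_S2 ⟨EuclideanSpace.single 0 1, by simp⟩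
  exact ⟨⟨_, _, hp⟩⟩

include D in
/-- a third point near a given point of `X` -/
lemma Dat.third {x : P} (hx : x ∈ X) {ε : ℝ} (hε : 0 < ε) (y : P) :
    ∃ c ∈ X, c ≠ x ∧ c ≠ y ∧ dist x c < ε := by
  have h1 : D.im (ball x ε) ∈ 𝓝 (D.h x) :=
    (D.im_open isOpen_ball).mem_nhds (D.mem_im hx (mem_ball_self hε))
  have h2 : (D.im (ball x ε)).Infinite := infinite_of_mem_nhds (D.h x) h1
  obtain ⟨z, hz, hzn⟩ := (h2.sdiff (Set.toFinite {D.h x, D.h y})).nonempty
  refine ⟨D.k z, D.km hz.1, ?_, ?_, ?_⟩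
  · intro h
    apply hzn
    left
    rw [← D.hk z hz.1, h]
  · intro h
    apply hzn
    right
    rw [mem_singleton_iff, ← D.hk z hz.1, h]
  · rw [dist_comm]; exact hz.2

variable {lam : ℝ} (h1 : 1 ≤ lam) (hA : ALLC X lam)

include D h1 hA in
/-- linear local connectivity -/
lemma llc {x y : P} (hx : x ∈ X) (hy : y ∈ X) {ρ : ℝ} (hρ : 0 < ρ) (hxy : dist x y < ρ) :
    ∃ K ⊆ X, IsPreconnected K ∧ x ∈ K ∧ y ∈ K ∧ ∀ z ∈ K, dist x z ≤ 3 * lam * ρ := by
  obtain ⟨c, hc, hcx, hcy, hcd⟩ := D.third hx hρ y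
  have h2 : 0 < min (dist c x) (dist c y) := lt_min (dist_pos.2 hcx) (dist_pos.2 hcy)
  have h3 : dist c x < ρ := by rw [dist_comm]; exact hcd
  have h4 : dist c y ≤ dist c x + dist x y := dist_triangle _ _ _
  obtain ⟨K, hKX, -, hKc, hxK, hyK, hK⟩ := hA c hc (min (dist c x) (dist c y)) (2 * ρ) h2
    (lt_of_le_of_lt (min_le_left _ _) (by linarith)) x hx y hy (min_le_left _ _) (by linarith)
    (min_le_right _ _) (by linarith)
  refine ⟨K, hKX, hKc.isPreconnected, hxK, hyK, fun z hz => ?_⟩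
  have h5 := (hK z hz).2
  have h6 : dist x z ≤ dist x c + dist c z := dist_triangle _ _ _
  nlinarith

/-- nested intersections of compact connected sets -/
theorem isPreconnected_iInter_of_antitone {X : Type*} [TopologicalSpace X] [T2Space X]
    (E : ℕ → Set X) (hanti : Antitone E) (hc : ∀ n, IsCompact (E n))
    (hp : ∀ n, IsPreconnected (E n)) : IsPreconnected (⋂ n, E n) := by
  rw [isPreconnected_closed_iff]
  intro t t' ht ht' hsub hne hne'
  by_contra hcon
  rw [not_nonempty_iff_eq_empty] at hcon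
  have hIc : IsCompact (⋂ n, E n) := by
    apply (hc 0).of_isClosed_subset (isClosed_iInter fun n => (hc n).isClosed)
    exact iInter_subset _ 0
  have hdisj : Disjoint ((⋂ n, E n) ∩ t) ((⋂ n, E n) ∩ t') := by
    rw [Set.disjoint_iff_inter_eq_empty]
    rw [← hcon]
    ext x; simp only [mem_inter_iff]; tauto
  obtain ⟨U, V, hU, hV, hUt, hVt, hUV⟩ :=
    SeparatedNhds.of_isCompact_isCompact (hIc.inter_right ht) (hIc.inter_right ht') hdisj
  obtain ⟨n, hn⟩ := exists_subset_nhds_of_isCompact' (V := E) hanti.directed_ge hc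
    (fun n => (hc n).isClosed) (U := U ∪ V) (by
      intro x hx
      rcases hsub hx with h | h
      · exact mem_of_superset (hU.mem_nhds (hUt ⟨hx, h⟩)) subset_union_left
      · exact mem_of_superset (hV.mem_nhds (hVt ⟨hx, h⟩)) subset_union_right)
  obtain ⟨x, hx, hxt⟩ := hne
  obtain ⟨y, hy, hyt⟩ := hne'
  obtain ⟨z, hz, hzU, hzV⟩ := hp n U V hU hV hn
    ⟨x, mem_iInter.mp hx n, hUt ⟨hx, hxt⟩⟩ ⟨y, mem_iInter.mp hy n, hVt ⟨hy, hyt⟩⟩
  exact (Set.disjoint_left.mp hUV) hzU hzV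

include D h1 hA in
/-- points of `X` near a connected part of the boundary lie in a connected set near it -/
lemma chain {E : Set P} (hE : IsPreconnected E) (hEb : E ⊆ bdry X) {ε : ℝ} (hε : 0 < ε)
    {q q' : P} (hq : q ∈ E) (hq' : q' ∈ E) {y y' : P} (hy : y ∈ X) (hyq : dist y q < ε)
    (hy' : y' ∈ X) (hyq' : dist y' q' < ε) :
    ∃ K ⊆ X ∩ thickening (10 * lam * ε) E, IsPreconnected K ∧ y ∈ K ∧ y' ∈ K := by
  have key := hE.induction₂ (fun q q' => ∀ y ∈ X, dist y q < ε → ∀ y' ∈ X, dist y' q' < ε →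
    ∃ K ⊆ X ∩ thickening (10 * lam * ε) E, IsPreconnected K ∧ y ∈ K ∧ y' ∈ K) ?_ ?_ ?_ hq hq'
  · exact key y hy hyq y' hy' hyq'
  · intro q hq
    have : ∀ᶠ q' in 𝓝[E] q, dist q' q < ε := nhdsWithin_le_nhds (ball_mem_nhds q hε)
    filter_upwards [this] with q' hqq' y hy hyq y' hy' hyq'
    have hd : dist y y' < 3 * ε := by
      have e1 : dist y y' ≤ dist y q + dist q y' := dist_triangle _ _ _
      have e2 : dist q y' ≤ dist q q' + dist q' y' := dist_triangle _ _ _
      rw [dist_comm q q', dist_comm q' y'] at e2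
      linarith
    obtain ⟨K, hKX, hKc, hyK, hyK', hK⟩ := llc D h1 hA hy hy' (by linarith : 0 < 3 * ε) hd
    refine ⟨K, fun z hz => ⟨hKX hz, ?_⟩, hKc, hyK, hyK'⟩
    rw [mem_thickening_iff]
    refine ⟨q, hq, ?_⟩
    have e1 : dist z q ≤ dist z y + dist y q := dist_triangle _ _ _
    have e2 := hK z hz
    rw [dist_comm] at e2
    nlinarith
  · intro q1 q2 q3 _ hq2 _ h12 h23 y hy hyq y' hy' hyq'
    obtain ⟨w, hwX, hw⟩ := Metric.mem_closure_iff.1 (hEb hq2).1 ε hε
    rw [dist_comm] at hw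
    obtain ⟨K, hK, hKc, hyK, hwK⟩ := h12 y hy hyq w hwX hw
    obtain ⟨K', hK', hKc', hwK', hyK'⟩ := h23 w hwX hw y' hy' hyq'
    exact ⟨K ∪ K', union_subset hK hK', hKc.union w hwK hwK' hKc', Or.inl hyK, Or.inr hyK'⟩
  · intro q1 q2 _ _ h12 y hy hyq y' hy' hyq'
    obtain ⟨K, hK, hKc, hyK, hwK⟩ := h12 y' hy' hyq' y hy hyq
    exact ⟨K, hK, hKc, hwK, hyK⟩

include h1 hA in
/-- the trace of a connected part of the metric boundary on the boundary of the domain -/
lemma trace {E : Set P} (hE : IsPreconnected E) (hEn : E.Nonempty) (hEb : E ⊆ bdry X) :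
    ∃ Z : Set S2, IsPreconnected Z ∧ (∀ z ∈ Z, z ∉ D.U) ∧
      (∀ p ∈ E, ∀ ρ > 0, (Z ∩ closure (D.im (ball p ρ))).Nonempty) ∧
      ∀ ε > 0, Z ⊆ closure (D.im (thickening ε E)) := by
  obtain ⟨q0, hq0⟩ := hEn
  set C : ℝ := 10 * lam with hC
  have hC1 : 1 < C := by linarith
  have hC0 : 0 < C := by linarith
  set ε : ℕ → ℝ := fun n => (C ^ n)⁻¹ with hε
  have hεpos : ∀ n, 0 < ε n := fun n => by positivity
  have hεs : ∀ n, C * ε (n + 1) = ε n := by
    intro n
    simp only [hε, pow_succ]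
    field_simp
  have hy0 : ∀ n, ∃ y ∈ X, dist y q0 < ε (n + 1) := by
    intro n
    obtain ⟨w, hwX, hw⟩ := Metric.mem_closure_iff.1 (hEb hq0).1 (ε (n + 1)) (hεpos _)
    exact ⟨w, hwX, by rw [dist_comm]; exact hw⟩
  choose y0 hy0X hy0d using hy0
  set G : ℕ → Set P := fun n => connectedComponentIn (X ∩ thickening (ε n) E) (y0 n) with hG
  have hGsub : ∀ n, G n ⊆ X ∩ thickening (ε n) E := fun n => connectedComponentIn_subset _ _
  have hGsup : ∀ n, X ∩ thickening (ε (n + 1)) E ⊆ G n := by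
    rintro n y ⟨hyX, hy⟩
    obtain ⟨q, hq, hyq⟩ := mem_thickening_iff.1 hy
    obtain ⟨K, hK, hKc, h2, h3⟩ := chain D h1 hA hE hEb (hεpos (n + 1)) hq0 hq (hy0X n)
      (hy0d n) hyX hyq
    rw [← hC, hεs n] at hK
    exact hKc.subset_connectedComponentIn h2 hK h3
  have hGanti : Antitone G := antitone_nat_of_succ_le fun n => (hGsub (n + 1)).trans (hGsup n)
  have hGX : ∀ n, G n ⊆ X := fun n => (hGsub n).trans inter_subset_left
  set Zn : ℕ → Set S2 := fun n => closure (D.h '' G n) with hZn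
  have hZanti : Antitone Zn := fun m n hmn => closure_mono (image_mono (hGanti hmn))
  have hsmall : ∀ η > 0, ∃ n, ε n < η := by
    intro η hη
    have : Tendsto ε atTop (𝓝 0) := tendsto_inv_atTop_zero.comp (tendsto_pow_atTop_atTop_of_one_lt hC1)
    exact (this.eventually (gt_mem_nhds hη)).exists
  have hhim : ∀ n, D.h '' G n ⊆ D.im (thickening (ε n) E) := by
    rintro n _ ⟨x, hx, rfl⟩
    exact D.mem_im (hGX n hx) (hGsub n hx).2
  refine ⟨⋂ n, Zn n, ?_, ?_, ?_, ?_⟩
  · refine isPreconnected_iInter_of_antitone Zn hZanti (fun n => isClosed_closure.isCompact)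
      fun n => ?_
    exact (isPreconnected_connectedComponentIn.image _ (D.hc.mono (hGX n))).closure
  · intro z hz hzU
    rw [mem_iInter] at hz
    -- the distance of `k z` to `E`
    have hkz : D.k z ∉ closure E := by
      intro h
      have : D.k z ∈ bdry X := closure_minimal hEb D.bdry_closed h
      exact this.2 (D.km hzU)
    obtain ⟨η, hη, hηE⟩ := Metric.mem_nhds_iff.1 (isClosed_closure.isOpen_compl.mem_nhds hkz)
    obtain ⟨n, hn⟩ := hsmall (η / 2) (by linarith)
    have hop : IsOpen (D.im (ball (D.k z) (η / 2))) := D.im_open isOpen_ball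
    have hzm : z ∈ D.im (ball (D.k z) (η / 2)) := ⟨hzU, mem_ball_self (by linarith)⟩
    obtain ⟨w, hw1, hw2⟩ := _root_.mem_closure_iff.1 (hz n) _ hop hzm
    have hw3 := hhim n hw2
    obtain ⟨q, hq, hwq⟩ := mem_thickening_iff.1 hw3.2
    have hw4 : dist (D.k w) (D.k z) < η / 2 := hw1.2
    have : q ∈ ball (D.k z) η := by
      rw [mem_ball, dist_comm]
      calc dist (D.k z) q ≤ dist (D.k z) (D.k w) + dist (D.k w) q := dist_triangle _ _ _
        _ < η := by rw [dist_comm (D.k z)]; linarith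
    exact hηE this (subset_closure hq)
  · intro p hp ρ hρ
    have hne : (⋂ n, closure (D.im (ball p (min ρ (ε (n + 1)))))).Nonempty := by
      apply IsCompact.nonempty_iInter_of_directed_nonempty_isCompact_isClosed
      · refine Antitone.directed_ge ?_
        intro m n hmn
        apply closure_mono
        apply D.im_mono
        apply ball_subset_ball
        refine min_le_min_left _ ?_
        simp only [hε]
        exact inv_anti₀ (by positivity) (pow_le_pow_right₀ hC1.le (by omega))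
      · intro n
        obtain ⟨w, hwX, hw⟩ := Metric.mem_closure_iff.1 (hEb hp).1 (min ρ (ε (n + 1)))
          (lt_min hρ (hεpos _))
        exact ⟨D.h w, subset_closure (D.mem_im hwX (by rw [mem_ball, dist_comm]; exact hw))⟩
      · exact fun n => isClosed_closure.isCompact
      · exact fun n => isClosed_closure
    obtain ⟨z, hz⟩ := hne
    rw [mem_iInter] at hz
    refine ⟨z, ?_, ?_⟩
    · rw [mem_iInter]
      intro n
      refine closure_mono ?_ (hz n)
      rw [D.im_eq]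
      apply image_mono
      rintro x ⟨hxX, hx⟩
      apply hGsup n
      refine ⟨hxX, ?_⟩
      rw [mem_thickening_iff]
      exact ⟨p, hp, lt_of_lt_of_le hx (min_le_right _ _)⟩
    · exact closure_mono (D.im_mono (ball_subset_ball (min_le_left _ _))) (hz 0)
  · intro η hη
    obtain ⟨n, hn⟩ := hsmall η hη
    intro z hz
    rw [mem_iInter] at hz
    exact closure_mono ((hhim n).trans (D.im_mono (thickening_mono hn.le E))) (hz n)

end

end Pool.Agent.N283.AL
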