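import Pool.Agent.N283.AL.Defs
import Pool.Agent.Helper486.Topo2

/-!
# A family of ALLC spaces with non-compact completion without relative separation
-/

set_option autoImplicit false

open Set Topology Metric Filter

namespace Pool.Agent.N283.AL.Neg

open Pool.Agent.Helper486.Topo Pool.Agent.N283.AL

/-- positive part -/
noncomputable def pp (t : ℝ) : ℝ := max t 0

/-- negative part -/
noncomputable def nn (t : ℝ) : ℝ := max (-t) 0

/-- vertical distance -/
noncomputable def vv (b t : ℝ) : ℝ := max |pp t - pp b| (min |nn t - nn b| 1)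

/-- distance -/
noncomputable def dd (z w : ℝ × ℝ) : ℝ := max |w.1 - z.1| (vv z.2 w.2)

/-- the T-shaped domain -/
def T : Set (ℝ × ℝ) := univ ×ˢ Ioi 0 ∪ Ioo 0 1 ×ˢ univ

lemma mem_T {x y : ℝ} : (x, y) ∈ T ↔ 0 < y ∨ (0 < x ∧ x < 1) := by
  simp [T]

lemma vv_nonneg (b t : ℝ) : 0 ≤ vv b t := (abs_nonneg _).trans (le_max_left _ _)

lemma pp_mono {s t : ℝ} (h : s ≤ t) : pp s ≤ pp t := max_le_max h le_rfl

lemma nn_anti {s t : ℝ} (h : s ≤ t) : nn t ≤ nn s := max_le_max (by linarith) le_rfl

lemma vv_up {b s t : ℝ} (h1 : b ≤ s) (h2 : s ≤ t) : vv b s ≤ vv b t := by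
  have e1 := pp_mono h1
  have e2 := pp_mono h2
  have e3 := nn_anti h1
  have e4 := nn_anti h2
  unfold vv
  refine max_le_max ?_ (min_le_min ?_ le_rfl)
  · rw [abs_of_nonneg (by linarith), abs_of_nonneg (by linarith)]; linarith
  · rw [abs_of_nonpos (by linarith), abs_of_nonpos (by linarith)]; linarith

lemma vv_down {b s t : ℝ} (h1 : s ≤ b) (h2 : t ≤ s) : vv b s ≤ vv b t := by
  have e1 := pp_mono h1
  have e2 := pp_mono h2
  have e3 := nn_anti h1
  have e4 := nn_anti h2
  unfold vv
  refine max_le_max ?_ (min_le_min ?_ le_rfl)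
  · rw [abs_of_nonpos (by linarith), abs_of_nonpos (by linarith)]; linarith
  · rw [abs_of_nonneg (by linarith), abs_of_nonneg (by linarith)]; linarith

lemma vv_between {b y h t : ℝ} (h1 : y ≤ t) (h2 : t ≤ h) {C : ℝ}
    (hy : vv b y ≤ C) (hh : vv b h ≤ C) : vv b t ≤ C := by
  rcases le_total b t with h3 | h3
  · exact (vv_up h3 h2).trans hh
  · exact (vv_down h3 h1).trans hy

/-- the height of the hub -/
lemma exists_hub (b : ℝ) {R : ℝ} (hR : 0 < R) : ∃ h, b ≤ h ∧ R ≤ vv b h ∧ vv b h ≤ 3 * R := by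
  by_cases h2 : R < 1 / 2
  · have k1 : pp (b + 2 * R) - nn (b + 2 * R) = b + 2 * R := by
      unfold pp nn
      rcases le_total 0 (b + 2 * R) with h | h
      · rw [max_eq_left h, max_eq_right (by linarith)]; ring
      · rw [max_eq_right h, max_eq_left (by linarith)]; ring
    have k2 : pp b - nn b = b := by
      unfold pp nn
      rcases le_total 0 b with h | h
      · rw [max_eq_left h, max_eq_right (by linarith)]; ring
      · rw [max_eq_right h, max_eq_left (by linarith)]; ring
    have e1 := pp_mono (show b ≤ b + 2 * R by linarith)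
    have e2 := nn_anti (show b ≤ b + 2 * R by linarith)
    refine ⟨b + 2 * R, by linarith, ?_, ?_⟩
    · unfold vv
      rw [abs_of_nonneg (by linarith), abs_of_nonpos (by linarith)]
      by_cases h3 : R ≤ pp (b + 2 * R) - pp b
      · exact h3.trans (le_max_left _ _)
      · refine le_trans (le_min ?_ ?_) (le_max_right _ _)
        · linarith
        · linarith
    · unfold vv
      rw [abs_of_nonneg (by linarith), abs_of_nonpos (by linarith)]
      refine max_le (by linarith) ((min_le_left _ _).trans (by linarith))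
  · have hb0 : 0 ≤ pp b := le_max_right _ _
    have hbb : b ≤ pp b := le_max_left _ _
    have hh : pp (pp b + R + 1) = pp b + R + 1 := max_eq_left (by linarith)
    refine ⟨pp b + R + 1, by linarith, ?_, ?_⟩
    · unfold vv
      rw [hh]
      refine le_trans ?_ (le_max_left _ _)
      rw [abs_of_nonneg (by linarith)]; linarith
    · unfold vv
      rw [hh]
      refine max_le ?_ ((min_le_right _ _).trans (by linarith))
      rw [abs_of_nonneg (by linarith)]; linarith

/-- linked by a continuum of points with a property -/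
def Lk (Q : ℝ × ℝ → Prop) (x y : ℝ × ℝ) : Prop :=
  ∃ K : Set (ℝ × ℝ), IsCompact K ∧ IsConnected K ∧ x ∈ K ∧ y ∈ K ∧ ∀ z ∈ K, Q z

lemma Lk.symm {Q : ℝ × ℝ → Prop} {x y : ℝ × ℝ} (h : Lk Q x y) : Lk Q y x := by
  obtain ⟨K, h1, h2, h3, h4, h5⟩ := h
  exact ⟨K, h1, h2, h4, h3, h5⟩

lemma Lk.trans {Q : ℝ × ℝ → Prop} {x y z : ℝ × ℝ} (h : Lk Q x y) (h' : Lk Q y z) : Lk Q x z := by
  obtain ⟨K, h1, h2, h3, h4, h5⟩ := h
  obtain ⟨K', h1', h2', h3', h4', h5'⟩ := h'
  refine ⟨K ∪ K', h1.union h1', h2.union ⟨y, h4, h3'⟩ h2', Or.inl h3, Or.inr h4', ?_⟩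
  rintro w (hw | hw)
  · exact h5 w hw
  · exact h5' w hw

lemma Lk.vert {Q : ℝ × ℝ → Prop} {x y1 y2 : ℝ} (h : ∀ t ∈ uIcc y1 y2, Q (x, t)) :
    Lk Q (x, y1) (x, y2) := by
  refine ⟨{x} ×ˢ uIcc y1 y2, isCompact_singleton.prod isCompact_uIcc,
    isConnected_singleton.prod ⟨nonempty_uIcc, isPreconnected_uIcc⟩, by simp, by simp, ?_⟩
  rintro ⟨s, t⟩ ⟨hs, ht⟩
  have : s = x := hs
  subst this
  exact h t ht

lemma Lk.horiz {Q : ℝ × ℝ → Prop} {y x1 x2 : ℝ} (h : ∀ s ∈ uIcc x1 x2, Q (s, y)) :
    Lk Q (x1, y) (x2, y) := by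
  refine ⟨uIcc x1 x2 ×ˢ {y}, isCompact_uIcc.prod isCompact_singleton,
    (show IsConnected (uIcc x1 x2) from ⟨nonempty_uIcc, isPreconnected_uIcc⟩).prod
      isConnected_singleton, by simp, by simp, ?_⟩
  rintro ⟨s, t⟩ ⟨hs, ht⟩
  have : t = y := ht
  subst this
  exact h s hs

lemma abs_between {a x x' s C : ℝ} (hs : s ∈ uIcc x x') (hx : |x - a| ≤ C) (hx' : |x' - a| ≤ C) :
    |s - a| ≤ C := by
  rw [abs_le] at *
  rcases le_total x x' with h | h
  · rw [uIcc_of_le h] at hs
    exact ⟨by linarith [hs.1], by linarith [hs.2]⟩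
  · rw [uIcc_of_ge h] at hs
    exact ⟨by linarith [hs.1], by linarith [hs.2]⟩

/-- linking with the hub -/
theorem link_hub {a1 a2 : ℝ} (ha : (a1, a2) ∈ T) {r R : ℝ} (hr : 0 < r) (hrR : r ≤ R) {h : ℝ}
    (hh : a2 ≤ h) (hh1 : R ≤ vv a2 h) (hh2 : vv a2 h ≤ 3 * R) {x y : ℝ} (hz : (x, y) ∈ T)
    (hz1 : r ≤ dd (a1, a2) (x, y)) (hz2 : dd (a1, a2) (x, y) ≤ R) :
    Lk (fun z => z ∈ T ∧ r / 8 ≤ dd (a1, a2) z ∧ dd (a1, a2) z ≤ 8 * R) (x, y) (a1, h) := by
  have hR : 0 < R := by linarith
  have hx : |x - a1| ≤ R := (le_max_left _ _).trans hz2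
  have hy : vv a2 y ≤ R := (le_max_right _ _).trans hz2
  have hrv : r ≤ vv a2 h := by linarith
  -- going up and then sideways
  have up : ∀ x' y' : ℝ, (x', y') ∈ T → y' ≤ h → |x' - a1| ≤ R → vv a2 y' ≤ R →
      (∀ t, y' ≤ t → t ≤ h → r / 8 ≤ max |x' - a1| (vv a2 t)) →
      Lk (fun z => z ∈ T ∧ r / 8 ≤ dd (a1, a2) z ∧ dd (a1, a2) z ≤ 8 * R) (x', y') (a1, h) := by
    intro x' y' hT hy'h hx' hy' hlow
    refine (Lk.vert (y2 := h) ?_).trans (Lk.horiz ?_)
    · intro t ht
      rw [uIcc_of_le hy'h] at ht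
      refine ⟨?_, hlow t ht.1 ht.2, ?_⟩
      · rw [mem_T] at hT ⊢
        rcases hT with h1 | h1
        · left; linarith [ht.1]
        · right; exact h1
      · exact max_le (by linarith) (vv_between ht.1 ht.2 (by linarith) (by linarith))
    · intro s hs
      refine ⟨?_, ?_, ?_⟩
      · rw [mem_T] at hT ha ⊢
        by_cases h0 : 0 < h
        · left; exact h0
        · right
          have h1 : 0 < x' ∧ x' < 1 := hT.resolve_left (by linarith)
          have h2 : 0 < a1 ∧ a1 < 1 := ha.resolve_left (by linarith)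
          rcases le_total x' a1 with h3 | h3
          · rw [uIcc_of_le h3] at hs
            exact ⟨by linarith [hs.1], by linarith [hs.2]⟩
          · rw [uIcc_of_ge h3] at hs
            exact ⟨by linarith [hs.1], by linarith [hs.2]⟩
      · exact le_trans (by linarith) (le_max_right _ _)
      · refine max_le ?_ (by show vv a2 h ≤ _; linarith)
        have : |s - a1| ≤ R := abs_between hs hx' (by simp [hR.le])
        show |s - a1| ≤ 8 * R
        linarith
  by_cases hyh : y ≤ h
  · by_cases hxr : r ≤ |x - a1|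
    · refine up x y hz hyh hx hy fun t _ _ => ?_
      exact le_trans (by linarith) (le_max_left _ _)
    · rw [not_le] at hxr
      have hyr : r ≤ vv a2 y := by
        rcases le_max_iff.1 hz1 with h1 | h1
        · exact absurd h1 (not_le.2 hxr)
        · exact h1
      by_cases hya : a2 ≤ y
      · refine up x y hz hyh hx hy fun t ht _ => ?_
        have := vv_up hya ht
        exact le_trans (by linarith) (le_max_right _ _)
      · rw [not_le] at hya
        by_cases hy0 : 0 < y
        · have h3 : |a1 + r - a1| = r := by rw [add_sub_cancel_left, abs_of_pos hr]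
          refine (Lk.horiz (x2 := a1 + r) ?_).trans (up (a1 + r) y ?_ hyh ?_ hy ?_)
          · intro s hs
            refine ⟨mem_T.2 (Or.inl hy0), ?_, ?_⟩
            · exact le_trans (by linarith) (le_max_right _ _)
            · refine max_le ?_ (by show vv a2 y ≤ _; linarith)
              have : |s - a1| ≤ R := abs_between hs hx (by linarith)
              show |s - a1| ≤ 8 * R
              linarith
          · exact mem_T.2 (Or.inl hy0)
          · linarith
          · intro t _ _
            exact le_trans (by linarith) (le_max_left _ _)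
        · rw [not_lt] at hy0
          have hx01 : 0 < x ∧ x < 1 := (mem_T.1 hz).resolve_left (by linarith)
          by_cases hr2 : r ≤ 2
          · obtain ⟨x', hx'0, hx'1, hx'2, hx'3⟩ : ∃ x', 0 < x' ∧ x' < 1 ∧ r / 8 ≤ |x' - a1| ∧
                |x' - a1| ≤ r := by
              have hs0 : 0 < min (r / 2) (1 / 4) := lt_min (by linarith) (by norm_num)
              have hs1 : min (r / 2) (1 / 4) ≤ r / 2 := min_le_left _ _
              have hs2 : min (r / 2) (1 / 4) ≤ 1 / 4 := min_le_right _ _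
              have hs3 : r / 8 ≤ min (r / 2) (1 / 4) := le_min (by linarith) (by linarith)
              rw [abs_lt] at hxr
              by_cases ha1 : a1 < 1 / 2
              · refine ⟨max x (a1 + min (r / 2) (1 / 4)), lt_of_lt_of_le hx01.1 (le_max_left _ _),
                  max_lt hx01.2 (by linarith), ?_, ?_⟩
                · have := le_max_right x (a1 + min (r / 2) (1 / 4))
                  rw [abs_of_nonneg (by linarith)]; linarith
                · have := le_max_right x (a1 + min (r / 2) (1 / 4))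
                  rw [abs_of_nonneg (by linarith)]
                  have h4 : max x (a1 + min (r / 2) (1 / 4)) ≤ a1 + r :=
                    max_le (by linarith [hxr.2]) (by linarith)
                  linarith
              · refine ⟨min x (a1 - min (r / 2) (1 / 4)), lt_min hx01.1 (by linarith),
                  lt_of_le_of_lt (min_le_left _ _) hx01.2, ?_, ?_⟩
                · have := min_le_right x (a1 - min (r / 2) (1 / 4))
                  rw [abs_of_nonpos (by linarith)]; linarith
                · have := min_le_right x (a1 - min (r / 2) (1 / 4))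
                  rw [abs_of_nonpos (by linarith)]
                  have h4 : a1 - r ≤ min x (a1 - min (r / 2) (1 / 4)) :=
                    le_min (by linarith [hxr.1]) (by linarith)
                  linarith
            refine (Lk.horiz (x2 := x') ?_).trans (up x' y ?_ hyh (by linarith) hy ?_)
            · intro s hs
              refine ⟨mem_T.2 (Or.inr ?_), ?_, ?_⟩
              · rcases le_total x x' with h3 | h3
                · rw [uIcc_of_le h3] at hs
                  exact ⟨by linarith [hs.1], by linarith [hs.2]⟩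
                · rw [uIcc_of_ge h3] at hs
                  exact ⟨by linarith [hs.1], by linarith [hs.2]⟩
              · exact le_trans (by linarith) (le_max_right _ _)
              · refine max_le ?_ (by show vv a2 y ≤ _; linarith)
                have : |s - a1| ≤ R := abs_between hs hx (by linarith)
                show |s - a1| ≤ 8 * R
                linarith
            · exact mem_T.2 (Or.inr ⟨hx'0, hx'1⟩)
            · intro t _ _
              exact le_trans hx'2 (le_max_left _ _)
          · rw [not_le] at hr2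
            have hppy : pp y = 0 := max_eq_right hy0
            have ha2 : r ≤ a2 := by
              rcases le_max_iff.1 hyr with h1 | h1
              · rw [hppy, zero_sub, abs_neg, abs_of_nonneg (le_max_right _ _)] at h1
                rcases le_max_iff.1 h1 with h2 | h2
                · exact h2
                · linarith
              · have := h1.trans (min_le_right _ _)
                linarith
            have hppa : pp a2 = a2 := max_eq_left (by linarith)
            have hlow : ∀ t, t ≤ 1 → r / 8 ≤ vv a2 t := by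
              intro t ht
              have h1 : pp t ≤ 1 := max_le ht zero_le_one
              refine le_trans ?_ (le_max_left _ _)
              rw [hppa, abs_of_nonpos (by linarith)]; linarith
            have hv1 : vv a2 1 ≤ R := (vv_down (by linarith) (by linarith)).trans hy
            have h3 : |a1 + r - a1| = r := by rw [add_sub_cancel_left, abs_of_pos hr]
            refine ((Lk.vert (y2 := 1) ?_).trans (Lk.horiz (x2 := a1 + r) ?_)).trans
              (up (a1 + r) 1 ?_ (by linarith) (by linarith) hv1 ?_)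
            · intro t ht
              rw [uIcc_of_le (by linarith)] at ht
              refine ⟨mem_T.2 (Or.inr hx01), ?_, ?_⟩
              · exact le_trans (hlow t ht.2) (le_max_right _ _)
              · refine max_le (by show |x - a1| ≤ _; linarith) ?_
                have := vv_down (show t ≤ a2 by linarith [ht.2]) ht.1
                show vv a2 t ≤ 8 * R
                linarith
            · intro s hs
              refine ⟨mem_T.2 (Or.inl one_pos), ?_, ?_⟩
              · exact le_trans (hlow 1 le_rfl) (le_max_right _ _)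
              · refine max_le ?_ (by show vv a2 1 ≤ _; linarith)
                have : |s - a1| ≤ R := abs_between hs hx (by linarith)
                show |s - a1| ≤ 8 * R
                linarith
            · exact mem_T.2 (Or.inl one_pos)
            · intro t _ _
              exact le_trans (by linarith) (le_max_left _ _)
  · rw [not_le] at hyh
    refine (Lk.horiz (x2 := a1) ?_).trans (Lk.vert ?_)
    · intro s hs
      refine ⟨?_, ?_, ?_⟩
      · rw [mem_T] at hz ha ⊢
        by_cases h0 : 0 < y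
        · left; exact h0
        · right
          have h1 : 0 < x ∧ x < 1 := hz.resolve_left h0
          have h2 : 0 < a1 ∧ a1 < 1 := ha.resolve_left (by linarith)
          rcases le_total x a1 with h3 | h3
          · rw [uIcc_of_le h3] at hs
            exact ⟨by linarith [hs.1], by linarith [hs.2]⟩
          · rw [uIcc_of_ge h3] at hs
            exact ⟨by linarith [hs.1], by linarith [hs.2]⟩
      · have := vv_up hh hyh.le
        exact le_trans (by linarith) (le_max_right _ _)
      · refine max_le ?_ (by show vv a2 y ≤ _; linarith)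
        have : |s - a1| ≤ R := abs_between hs hx (by simp [hR.le])
        show |s - a1| ≤ 8 * R
        linarith
    · intro t ht
      rw [uIcc_of_ge hyh.le] at ht
      have h1 := vv_up hh ht.1
      have h2 := vv_up (hh.trans ht.1) ht.2
      refine ⟨?_, ?_, ?_⟩
      · rw [mem_T] at ha ⊢
        rcases ha with h3 | h3
        · left; linarith [ht.1]
        · right; exact h3
      · exact le_trans (by linarith) (le_max_right _ _)
      · refine max_le (by simp [hR.le]) ?_
        show vv a2 t ≤ 8 * R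
        linarith

/-- the ALLC property for the distance `dd` -/
theorem allc_dd {a : ℝ × ℝ} (ha : a ∈ T) {r R : ℝ} (hr : 0 < r) (hrR : r ≤ R) {x y : ℝ × ℝ}
    (hx : x ∈ T) (hy : y ∈ T) (hx1 : r ≤ dd a x) (hx2 : dd a x ≤ R) (hy1 : r ≤ dd a y)
    (hy2 : dd a y ≤ R) :
    Lk (fun z => z ∈ T ∧ r / 8 ≤ dd a z ∧ dd a z ≤ 8 * R) x y := by
  obtain ⟨h, h1, h2, h3⟩ := exists_hub a.2 (hr.trans_le hrR)
  exact (link_hub ha hr hrR h1 h2 h3 hx hx1 hx2).trans
    (link_hub ha hr hrR h1 h2 h3 hy hy1 hy2).symm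

/-! ### the metric space -/

/-- the plane with the bounded metric `min (dd z w) M` -/
def Pl (_ : {M : ℝ // 1 ≤ M}) : Type := ℝ × ℝ

lemma trunc_tri {a b c M : ℝ} (ha : 0 ≤ a) (hb : 0 ≤ b) (hM : 0 ≤ M) (h : c ≤ a + b) :
    min c M ≤ min a M + min b M := by
  rcases le_total a M with h1 | h1
  · rcases le_total b M with h2 | h2
    · rw [min_eq_left h1, min_eq_left h2]; exact (min_le_left _ _).trans h
    · rw [min_eq_left h1, min_eq_right h2]; exact (min_le_right _ _).trans (by linarith)
  · have : 0 ≤ min b M := le_min hb hM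
    rw [min_eq_right h1]; exact (min_le_right _ _).trans (by linarith)

lemma vv_comm (b t : ℝ) : vv b t = vv t b := by
  unfold vv
  rw [abs_sub_comm (pp t), abs_sub_comm (nn t)]

lemma vv_tri (a b c : ℝ) : vv a c ≤ vv a b + vv b c := by
  unfold vv
  refine max_le ?_ ?_
  · have h1 : |pp c - pp a| ≤ |pp b - pp a| + |pp c - pp b| := by
      have := abs_sub_le (pp c) (pp b) (pp a)
      linarith
    exact h1.trans (add_le_add (le_max_left _ _) (le_max_left _ _))
  · have h1 : |nn c - nn a| ≤ |nn b - nn a| + |nn c - nn b| := by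
      have := abs_sub_le (nn c) (nn b) (nn a)
      linarith
    exact (trunc_tri (abs_nonneg _) (abs_nonneg _) zero_le_one h1).trans
      (add_le_add (le_max_right _ _) (le_max_right _ _))

lemma dd_nonneg (z w : ℝ × ℝ) : 0 ≤ dd z w := (abs_nonneg _).trans (le_max_left _ _)

lemma dd_comm (z w : ℝ × ℝ) : dd z w = dd w z := by
  unfold dd
  rw [abs_sub_comm, vv_comm]

lemma dd_tri (z w u : ℝ × ℝ) : dd z u ≤ dd z w + dd w u := by
  unfold dd
  refine max_le ?_ ?_
  · have h1 : |u.1 - z.1| ≤ |w.1 - z.1| + |u.1 - w.1| := by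
      have := abs_sub_le u.1 w.1 z.1
      linarith
    exact h1.trans (add_le_add (le_max_left _ _) (le_max_left _ _))
  · exact (vv_tri _ _ _).trans (add_le_add (le_max_right _ _) (le_max_right _ _))

lemma pp_sub_nn (t : ℝ) : pp t - nn t = t := by
  unfold pp nn
  rcases le_total 0 t with h | h
  · rw [max_eq_left h, max_eq_right (by linarith)]; ring
  · rw [max_eq_right h, max_eq_left (by linarith)]; ring

lemma abs_pp (s t : ℝ) : |pp s - pp t| ≤ |s - t| := by
  unfold pp; exact abs_max_sub_max_le_abs s t 0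

lemma abs_nn (s t : ℝ) : |nn s - nn t| ≤ |s - t| := by
  unfold nn
  refine (abs_max_sub_max_le_abs (-s) (-t) 0).trans ?_
  rw [← abs_neg]; ring_nf; rfl

lemma dd_le_dist (z w : ℝ × ℝ) : dd z w ≤ dist z w := by
  rw [Prod.dist_eq, Real.dist_eq, Real.dist_eq]
  unfold dd vv
  refine max_le ?_ (max_le ?_ ?_)
  · rw [abs_sub_comm]; exact le_max_left _ _
  · refine (abs_pp _ _).trans ?_
    rw [abs_sub_comm]; exact le_max_right _ _
  · refine (min_le_left _ _).trans ((abs_nn _ _).trans ?_)
    rw [abs_sub_comm]; exact le_max_right _ _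

lemma dist_le_dd {z w : ℝ × ℝ} (h : dd z w < 1) : dist z w ≤ 2 * dd z w := by
  have h0 := dd_nonneg z w
  have h1 : |w.1 - z.1| ≤ dd z w := le_max_left _ _
  have h2 : |pp w.2 - pp z.2| ≤ dd z w := (le_max_left _ _).trans (le_max_right _ _)
  have h3 : min |nn w.2 - nn z.2| 1 ≤ dd z w := (le_max_right _ _).trans (le_max_right _ _)
  have h4 : |nn w.2 - nn z.2| ≤ dd z w := by
    rcases min_le_iff.1 h3 with h5 | h5
    · exact h5
    · linarith
  have h5 : |z.2 - w.2| ≤ |pp w.2 - pp z.2| + |nn w.2 - nn z.2| := by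
    have e1 := pp_sub_nn z.2
    have e2 := pp_sub_nn w.2
    have : z.2 - w.2 = (nn w.2 - nn z.2) - (pp w.2 - pp z.2) := by linarith
    rw [this]
    have := abs_sub (nn w.2 - nn z.2) (pp w.2 - pp z.2)
    linarith
  rw [Prod.dist_eq, Real.dist_eq, Real.dist_eq]
  refine max_le ?_ (by linarith)
  rw [abs_sub_comm]; linarith

lemma dd_self (z : ℝ × ℝ) : dd z z = 0 :=
  le_antisymm (by have := dd_le_dist z z; rwa [dist_self] at this) (dd_nonneg z z)

lemma unif {M : ℝ} (hM : 1 ≤ M) : uniformity (ℝ × ℝ) =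
    ⨅ ε > 0, 𝓟 {p : (ℝ × ℝ) × (ℝ × ℝ) | min (dd p.1 p.2) M < ε} := by
  refine le_antisymm ?_ ?_
  · refine le_iInf₂ fun ε hε => le_principal_iff.2 ?_
    refine Metric.mem_uniformity_dist.2 ⟨ε, hε, fun z w hzw => ?_⟩
    exact lt_of_le_of_lt ((min_le_left _ _).trans (dd_le_dist _ _)) hzw
  · intro s hs
    obtain ⟨ε, hε, h⟩ := Metric.mem_uniformity_dist.1 hs
    refine Filter.mem_iInf_of_mem (min (ε / 2) 1) (Filter.mem_iInf_of_mem
      (lt_min (by linarith) one_pos) ?_)
    rw [Filter.mem_principal]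
    rintro ⟨z, w⟩ hzw
    have h1 : min (dd z w) M < min (ε / 2) 1 := hzw
    have h2 : dd z w < min (ε / 2) 1 := by
      rcases min_lt_iff.1 h1 with h3 | h3
      · exact h3
      · have := h3.trans_le (min_le_right _ _)
        linarith
    have h3 := h2.trans_le (min_le_right _ _)
    have h4 := h2.trans_le (min_le_left _ _)
    refine h ?_
    have := dist_le_dd h3
    linarith

lemma eq_of {M : ℝ} (hM : 1 ≤ M) {z w : ℝ × ℝ} (h1 : min (dd z w) M = 0) : z = w := by
  have h2 : dd z w = 0 := by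
    rcases min_choice (dd z w) M with h3 | h3
    · rw [h3] at h1; exact h1
    · rw [h3] at h1; linarith
  have h3 : dist z w ≤ 2 * dd z w := dist_le_dd (by rw [h2]; exact one_pos)
  rw [h2, mul_zero] at h3
  exact dist_le_zero.1 h3

noncomputable instance (M : {M : ℝ // 1 ≤ M}) : MetricSpace (Pl M) where
  dist z w := min (dd z w) M.1
  dist_self z := (congrArg (fun t => min t M.1) (dd_self z)).trans
    (min_eq_left (by have := M.2; linarith))
  dist_comm z w := congrArg (fun t => min t M.1) (dd_comm z w)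
  dist_triangle z w u := trunc_tri (dd_nonneg z w) (dd_nonneg w u) (by have := M.2; linarith)
    (dd_tri z w u)
  toUniformSpace := inferInstanceAs (UniformSpace (ℝ × ℝ))
  uniformity_dist := unif M.2
  eq_of_dist_eq_zero := fun h => eq_of M.2 h

lemma dist_eq {M : {M : ℝ // 1 ≤ M}} (z w : Pl M) : dist z w = min (dd z w) M.1 := rfl

instance (M : {M : ℝ // 1 ≤ M}) : CompleteSpace (Pl M) :=
  inferInstanceAs (CompleteSpace (ℝ × ℝ))

/-- the domain -/
def TT (M : {M : ℝ // 1 ≤ M}) : Set (Pl M) := T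

theorem allc_TT (M : {M : ℝ // 1 ≤ M}) : ALLC (TT M) 8 := by
  have hM := M.2
  intro a ha r R hr hrR x hx y hy hx1 hx2 hy1 hy2
  rw [dist_eq] at hx1 hx2 hy1 hy2
  have hrM : r ≤ M.1 := hx1.trans (min_le_right _ _)
  have hx1' : r ≤ dd a x := hx1.trans (min_le_left _ _)
  have hy1' : r ≤ dd a y := hy1.trans (min_le_left _ _)
  by_cases hRM : R < M.1
  · have hx2' : dd a x ≤ R := by
      rcases min_le_iff.1 hx2 with h | h
      · exact h
      · linarith
    have hy2' : dd a y ≤ R := by
      rcases min_le_iff.1 hy2 with h | h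
      · exact h
      · linarith
    obtain ⟨K, h1, h2, h3, h4, h5⟩ := allc_dd ha hr hrR.le hx hy hx1' hx2' hy1' hy2'
    refine ⟨K, fun z hz => (h5 z hz).1, h1, h2, h3, h4, fun z hz => ?_⟩
    rw [dist_eq]
    exact ⟨le_min (h5 z hz).2.1 (by linarith), (min_le_left _ _).trans (h5 z hz).2.2⟩
  · rw [not_lt] at hRM
    obtain ⟨K, h1, h2, h3, h4, h5⟩ := allc_dd (R := max (dd a x) (dd a y)) ha hr
      (hx1'.trans (le_max_left _ _)) hx hy hx1' (le_max_left _ _) hy1' (le_max_right _ _)
    refine ⟨K, fun z hz => (h5 z hz).1, h1, h2, h3, h4, fun z hz => ?_⟩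
    rw [dist_eq]
    exact ⟨le_min (h5 z hz).2.1 (by linarith), (min_le_right _ _).trans (by linarith)⟩

/-! ### topology -/

lemma T_conn : IsConnected T := by
  have h1 : IsConnected ((univ : Set ℝ) ×ˢ Ioi (0 : ℝ)) :=
    isConnected_univ.prod isConnected_Ioi
  have h2 : IsConnected (Ioo (0 : ℝ) 1 ×ˢ (univ : Set ℝ)) :=
    (isConnected_Ioo one_pos).prod isConnected_univ
  exact h1.union ⟨(1 / 2, 1), ⟨trivial, by simp⟩, ⟨by norm_num, trivial⟩⟩ h2

lemma T_open : IsOpen T :=
  (isOpen_univ.prod isOpen_Ioi).union (isOpen_Ioo.prod isOpen_univ)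

lemma T_dom : IsSphereDomain T := by
  obtain ⟨m⟩ : Nonempty S2 := ⟨⟨EuclideanSpace.single 0 1, by simp⟩⟩
  set e := chartC m with he
  have htar : e.target = univ := chartC_target m
  have hec : Continuous e.symm := by
    rw [← continuousOn_univ, ← htar]; exact e.continuousOn_symm
  have hsymm : ∀ w : ℂ, e.symm w ∈ e.source := fun w => e.map_target (by rw [htar]; trivial)
  have hr : ∀ w : ℂ, e (e.symm w) = w := fun w => e.right_inv (by rw [htar]; trivial)
  set φ : ℝ × ℝ ≃ₜ ℂ := Complex.equivRealProdCLM.symm.toHomeomorph with hφ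
  set V : Set ℂ := φ '' T with hV
  have hVo : IsOpen V := φ.isOpenMap _ T_open
  set U : Set S2 := e.source ∩ e ⁻¹' V with hU
  have hUo : IsOpen U := e.isOpen_inter_preimage hVo
  have hmap : ∀ x ∈ T, e.symm (φ x) ∈ U := by
    intro x hx
    refine ⟨hsymm _, ?_⟩
    rw [mem_preimage, hr]
    exact ⟨x, hx, rfl⟩
  have hback : ∀ z ∈ U, φ.symm (e z) ∈ T := by
    rintro z ⟨-, x, hx, hxz⟩
    rw [← hxz, φ.symm_apply_apply]; exact hx
  have hUeq : U = (fun x => e.symm (φ x)) '' T := by
    ext z
    constructor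
    · intro hz
      refine ⟨φ.symm (e z), hback z hz, ?_⟩
      show e.symm (φ (φ.symm (e z))) = z
      rw [φ.apply_symm_apply, e.left_inv hz.1]
    · rintro ⟨x, hx, rfl⟩
      exact hmap x hx
  refine ⟨U, hUo, ?_, ⟨?_⟩⟩
  · rw [hUeq]
    exact T_conn.image _ (hec.comp φ.continuous).continuousOn
  · refine
      { toFun := fun x => ⟨e.symm (φ x.1), hmap x.1 x.2⟩
        invFun := fun z => ⟨φ.symm (e z.1), hback z.1 z.2⟩
        left_inv := ?_
        right_inv := ?_
        continuous_toFun := ?_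
        continuous_invFun := ?_ }
    · intro x
      apply Subtype.ext
      show φ.symm (e (e.symm (φ x.1))) = x.1
      rw [hr, φ.symm_apply_apply]
    · intro z
      apply Subtype.ext
      show e.symm (φ (φ.symm (e z.1))) = z.1
      rw [φ.apply_symm_apply, e.left_inv z.2.1]
    · exact Continuous.subtype_mk ((hec.comp φ.continuous).comp continuous_subtype_val) _
    · refine Continuous.subtype_mk (φ.symm.continuous.comp ?_) _
      exact e.continuousOn.comp_continuous continuous_subtype_val (fun z => z.2.1)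

lemma bdry_T : bdry T = {z : ℝ × ℝ | (0 ≤ z.2 ∨ (0 ≤ z.1 ∧ z.1 ≤ 1)) ∧ z.2 ≤ 0 ∧
    (z.1 ≤ 0 ∨ 1 ≤ z.1)} := by
  have hcl : closure T = {z : ℝ × ℝ | 0 ≤ z.2 ∨ (0 ≤ z.1 ∧ z.1 ≤ 1)} := by
    unfold T
    rw [closure_union, closure_prod_eq, closure_prod_eq, closure_Ioo (by norm_num), closure_Ioi,
      closure_univ]
    ext ⟨x, y⟩
    simp
  unfold bdry
  rw [hcl]
  ext ⟨x, y⟩
  simp only [Set.mem_sdiff, mem_ofPred_eq, mem_T, not_or, not_and_or, not_lt]

/-- the left boundary component -/
def EE : Set (ℝ × ℝ) := Iic 0 ×ˢ {0} ∪ {0} ×ˢ Iic 0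

/-- the right boundary component -/
def FF : Set (ℝ × ℝ) := Ici 1 ×ˢ {0} ∪ {1} ×ˢ Iic 0

lemma bdry_T' : bdry T = EE ∪ FF := by
  rw [bdry_T]
  ext ⟨x, y⟩
  simp only [mem_ofPred_eq, EE, FF, mem_union, mem_prod, mem_Iic, mem_Ici, mem_singleton_iff]
  constructor
  · rintro ⟨h1, h2, h3⟩
    rcases h1 with h1 | ⟨h1, h4⟩
    · have hy : y = 0 := le_antisymm h2 h1
      rcases h3 with h3 | h3
      · left; left; exact ⟨h3, hy⟩
      · right; left; exact ⟨h3, hy⟩
    · rcases h3 with h3 | h3
      · left; right; exact ⟨le_antisymm h3 h1, h2⟩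
      · right; right; exact ⟨le_antisymm h4 h3, h2⟩
  · rintro ((⟨h1, h2⟩ | ⟨h1, h2⟩) | (⟨h1, h2⟩ | ⟨h1, h2⟩))
    · exact ⟨Or.inl h2.ge, h2.le, Or.inl h1⟩
    · exact ⟨Or.inr ⟨h1.ge, by linarith⟩, h2, Or.inl h1.le⟩
    · exact ⟨Or.inl h2.ge, h2.le, Or.inr h1⟩
    · exact ⟨Or.inr ⟨by linarith, h1.le⟩, h2, Or.inr h1.ge⟩

lemma EE_conn : IsPreconnected EE :=
  ((isPreconnected_Iic.prod isPreconnected_singleton).union (0, 0) (by simp) (by simp)
    (isPreconnected_singleton.prod isPreconnected_Iic))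

lemma FF_conn : IsPreconnected FF :=
  ((isPreconnected_Ici.prod isPreconnected_singleton).union (1, 0) (by simp) (by simp)
    (isPreconnected_singleton.prod isPreconnected_Iic))

lemma EE_x {z : ℝ × ℝ} (h : z ∈ EE) : z.1 ≤ 0 := by
  rcases h with ⟨h1, -⟩ | ⟨h1, -⟩
  · exact h1
  · exact (show z.1 = 0 from h1).le

lemma FF_x {z : ℝ × ℝ} (h : z ∈ FF) : 1 ≤ z.1 := by
  rcases h with ⟨h1, -⟩ | ⟨h1, -⟩
  · exact h1
  · exact (show z.1 = 1 from h1).ge

/-- a preconnected part of the boundary lies on one side -/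
lemma side {K : Set (ℝ × ℝ)} (hK : IsPreconnected K) (hKb : K ⊆ EE ∪ FF) {z w : ℝ × ℝ}
    (hz : z ∈ K) (hw : w ∈ K) (h : z.1 ≤ 0) : w.1 ≤ 0 := by
  by_contra hcon
  have h1 : 1 ≤ w.1 := by
    rcases hKb hw with h2 | h2
    · exact absurd (EE_x h2) hcon
    · exact FF_x h2
  obtain ⟨u, hu, hu2⟩ := hK.intermediate_value hz hw (f := Prod.fst) (by fun_prop)
    (show (1 / 2 : ℝ) ∈ Icc z.1 w.1 from ⟨by linarith, by linarith⟩)
  rcases hKb hu with h2 | h2
  · have := EE_x h2; linarith
  · have := FF_x h2; linarith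

lemma EE_comp : IsBdryComponent T EE := by
  have h0 : ((0, 0) : ℝ × ℝ) ∈ bdry T := by rw [bdry_T']; left; left; simp
  refine ⟨(0, 0), h0, ?_⟩
  apply Subset.antisymm
  · exact EE_conn.subset_connectedComponentIn (by left; simp)
      (by rw [bdry_T']; exact subset_union_left)
  · intro z hz
    have hsub := connectedComponentIn_subset (bdry T) (0, 0)
    nth_rewrite 2 [bdry_T'] at hsub
    have h1 := side isPreconnected_connectedComponentIn hsub
      (mem_connectedComponentIn h0) hz le_rfl
    rcases hsub hz with h2 | h2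
    · exact h2
    · have := FF_x h2; linarith

lemma FF_comp : IsBdryComponent T FF := by
  have h0 : ((1, 0) : ℝ × ℝ) ∈ bdry T := by rw [bdry_T']; right; left; simp
  refine ⟨(1, 0), h0, ?_⟩
  apply Subset.antisymm
  · exact FF_conn.subset_connectedComponentIn (by left; simp)
      (by rw [bdry_T']; exact subset_union_right)
  · intro z hz
    have hsub := connectedComponentIn_subset (bdry T) (1, 0)
    nth_rewrite 2 [bdry_T'] at hsub
    rcases hsub hz with h2 | h2
    · have h1 := side isPreconnected_connectedComponentIn hsub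
        hz (mem_connectedComponentIn h0) (EE_x h2)
      norm_num at h1
    · exact h2

lemma bounded {M : {M : ℝ // 1 ≤ M}} (S : Set (Pl M)) : Bornology.IsBounded S := by
  rw [Metric.isBounded_iff]
  exact ⟨M.1, fun x _ y _ => min_le_right _ _⟩

lemma diam_eq {M : {M : ℝ // 1 ≤ M}} {S : Set (Pl M)} {x y : Pl M} (hx : x ∈ S) (hy : y ∈ S)
    (h : M.1 ≤ dd x y) : diam S = M.1 := by
  refine le_antisymm ?_ ?_
  · exact diam_le_of_forall_dist_le (by have := M.2; linarith) (fun x _ y _ => min_le_right _ _)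
  · have h1 := dist_le_diam_of_mem (bounded S) hx hy
    rw [dist_eq, min_eq_right h] at h1
    exact h1

lemma neg_aux (M : {M : ℝ // 1 ≤ M}) : ∃ E F : Set (Pl M), IsBdryComponent (TT M) E ∧
      IsBdryComponent (TT M) F ∧ E ≠ F ∧ diam E = M.1 ∧ diam F = M.1 ∧
      ∃ x ∈ E, ∃ y ∈ F, dist x y ≤ 1 := by
  have hMpos : 0 < M.1 := lt_of_lt_of_le one_pos M.2
  have hE0 : ((0, 0) : ℝ × ℝ) ∈ EE := Or.inl ⟨le_refl (0 : ℝ), rfl⟩
  have hE1 : ((-M.1, 0) : ℝ × ℝ) ∈ EE :=
    Or.inl ⟨show -M.1 ≤ 0 by linarith, rfl⟩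
  have hF0 : ((1, 0) : ℝ × ℝ) ∈ FF := Or.inl ⟨le_refl (1 : ℝ), rfl⟩
  have hF1 : ((1 + M.1, 0) : ℝ × ℝ) ∈ FF :=
    Or.inl ⟨show 1 ≤ 1 + M.1 by linarith, rfl⟩
  have hdE : M.1 ≤ dd (0, 0) (-M.1, 0) := by
    refine le_trans ?_ (le_max_left _ _)
    show M.1 ≤ |-M.1 - 0|
    rw [sub_zero, abs_neg, abs_of_pos hMpos]
  have hdF : M.1 ≤ dd (1, 0) (1 + M.1, 0) := by
    refine le_trans ?_ (le_max_left _ _)
    show M.1 ≤ |1 + M.1 - 1|
    rw [add_sub_cancel_left, abs_of_pos hMpos]
  have hd : dd ((0, 0) : ℝ × ℝ) ((1, 0) : ℝ × ℝ) ≤ 1 := by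
    refine (dd_le_dist _ _).trans ?_
    rw [Prod.dist_eq]; simp
  refine ⟨EE, FF, EE_comp, FF_comp, ?_, diam_eq (M := M) hE0 hE1 hdE,
    diam_eq (M := M) hF0 hF1 hdF, _, hE0, _, hF0, ?_⟩
  · intro h
    have h1 : ((0, 0) : ℝ × ℝ) ∈ FF := (Set.ext_iff.1 h _).1 hE0
    have := FF_x h1
    norm_num at this
  · exact (min_le_left _ _).trans hd

/-- **Negative theorem.** Uniform relative separation fails for general completions. -/
theorem neg (δ : ℝ) (hδ : 0 < δ) : ∃ (P : Type) (_ : MetricSpace P) (X : Set P),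
    CompleteSpace P ∧ IsSphereDomain X ∧ ALLC X 8 ∧ ∃ E F : Set P, IsBdryComponent X E ∧
      IsBdryComponent X F ∧ E ≠ F ∧ Bornology.IsBounded E ∧ Bornology.IsBounded F ∧
      ∃ x ∈ E, ∃ y ∈ F, dist x y < δ * min (diam E) (diam F) := by
  have h0 : 0 < 1 / δ := by positivity
  obtain ⟨M, hM⟩ : ∃ M : {M : ℝ // 1 ≤ M}, M.1 = 1 + 1 / δ :=
    ⟨⟨1 + 1 / δ, by linarith⟩, rfl⟩
  obtain ⟨E, F, hE, hF, hne, hdE, hdF, x, hx, y, hy, hd⟩ := neg_aux M
  refine ⟨Pl M, inferInstance, TT M, inferInstance, T_dom, allc_TT M, E, F, hE, hF, hne,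
    bounded _, bounded _, x, hx, y, hy, ?_⟩
  rw [hdE, hdF, min_self, hM]
  have : δ * (1 + 1 / δ) = δ + 1 := by field_simp
  rw [this]; linarith

end Pool.Agent.N283.AL.Neg
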