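import Pool.Agent.N283.AL.Met

/-!
# Relative separation for ALLC spaces with compact completion
-/

set_option autoImplicit false

open Set Topology Metric Filter

namespace Pool.Agent.N283.AL

open Pool.Agent.Helper486.Topo

/-- clopen separation of two components of a compact set -/
lemma clopen_sep {P : Type} [MetricSpace P] {B : Set P} (hB : IsCompact B) {p q : P} (hp : p ∈ B)
    (hq : q ∈ B) (hne : connectedComponentIn B p ≠ connectedComponentIn B q) :
    ∃ T0 T1 : Set P, IsClosed T0 ∧ IsClosed T1 ∧ Disjoint T0 T1 ∧ T0 ∪ T1 = B ∧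
      connectedComponentIn B p ⊆ T0 ∧ connectedComponentIn B q ⊆ T1 := by
  have : CompactSpace B := isCompact_iff_compactSpace.1 hB
  have h1 : (⟨q, hq⟩ : B) ∉ connectedComponent (⟨p, hp⟩ : B) := by
    intro h
    apply hne
    have : q ∈ connectedComponentIn B p := by
      rw [connectedComponentIn_eq_image hp]
      exact ⟨_, h, rfl⟩
    exact connectedComponentIn_eq this
  rw [connectedComponent_eq_iInter_isClopen, mem_iInter] at h1
  push Not at h1
  obtain ⟨⟨T, hT, hpT⟩, hqT⟩ := h1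
  refine ⟨Subtype.val '' T, Subtype.val '' Tᶜ, ?_, ?_, ?_, ?_, ?_, ?_⟩
  · exact (hT.isClosed.isCompact.image continuous_subtype_val).isClosed
  · exact (hT.compl.isClosed.isCompact.image continuous_subtype_val).isClosed
  · rw [Set.disjoint_image_iff Subtype.val_injective]
    exact disjoint_compl_right
  · rw [← image_union, union_compl_self, image_univ, Subtype.range_coe]
  · rw [connectedComponentIn_eq_image hp]
    exact image_mono (hT.connectedComponent_subset hpT)
  · rw [connectedComponentIn_eq_image hq]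
    exact image_mono (hT.compl.connectedComponent_subset hqT)

section

variable {P : Type} [MetricSpace P] {X : Set P}

/-- the topological core: two boundary components `E`, `F` cannot be joined both by a connected
set near `a` and by a connected set far from `a`, if the part in between is connected -/
theorem core (D : Dat X) {lam : ℝ} (h1 : 1 ≤ lam)
    (hA : ALLC X lam) {E F : Set P} (hE : IsPreconnected E) (hEb : E ⊆ bdry X)
    (hF : IsPreconnected F) (hFb : F ⊆ bdry X)
    {a : P} {r1 R1 s1 S1 : ℝ} (hr : s1 < r1) (hrR : r1 < R1) (hRS : R1 < S1)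
    (hcomp : IsCompact (closure X ∩ closedBall a r1))
    {NN FF MM : Set P} (hNN : NN ⊆ X) (hNNc : IsPreconnected NN) (hNNd : ∀ x ∈ NN, dist a x ≤ s1)
    (hFF : FF ⊆ X) (hFFc : IsPreconnected FF) (hFFd : ∀ x ∈ FF, S1 ≤ dist a x)
    (hMM : MM ⊆ X) (hMMc : IsConnected MM) (hMMd : ∀ x ∈ MM, s1 < dist a x ∧ dist a x < S1)
    (hMMs : ∀ x ∈ X, r1 ≤ dist a x → dist a x ≤ R1 → x ∈ MM)
    {p1 p2 q1 q2 : P} (hp1 : p1 ∈ E) (hp2 : p2 ∈ E) (hq1 : q1 ∈ F) (hq2 : q2 ∈ F)
    (hp1r : dist a p1 ≤ r1) (hq1r : dist a q1 ≤ r1)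
    (hsep : ∀ K ⊆ bdry X, IsPreconnected K → p1 ∈ K → q1 ∉ K)
    {ρ : ℝ} (hρ : 0 < ρ) (hp1N : X ∩ ball p1 ρ ⊆ NN) (hq1N : X ∩ ball q1 ρ ⊆ NN)
    (hp2F : X ∩ ball p2 ρ ⊆ FF) (hq2F : X ∩ ball q2 ρ ⊆ FF) : False := by
  classical
  set B : Set P := bdry X ∩ closedBall a r1 with hB
  have hBc : IsCompact B := by
    refine hcomp.of_isClosed_subset (D.bdry_closed.inter isClosed_closedBall) ?_
    rintro x ⟨hx1, hx2⟩
    exact ⟨hx1.1, hx2⟩
  have hp1B : p1 ∈ B := ⟨hEb hp1, by rw [mem_closedBall, dist_comm]; exact hp1r⟩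
  have hq1B : q1 ∈ B := ⟨hFb hq1, by rw [mem_closedBall, dist_comm]; exact hq1r⟩
  have hne : connectedComponentIn B p1 ≠ connectedComponentIn B q1 := by
    intro h
    refine hsep (connectedComponentIn B p1)
      ((connectedComponentIn_subset _ _).trans inter_subset_left)
      isPreconnected_connectedComponentIn (mem_connectedComponentIn hp1B) ?_
    rw [h]; exact mem_connectedComponentIn hq1B
  obtain ⟨T0, T1, hT0, hT1, hT, hTB, hpT, hqT⟩ := clopen_sep hBc hp1B hq1B hne
  obtain ⟨g, hg0, hg1, -⟩ := exists_continuous_zero_one_of_isClosed hT0 hT1 hT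
  have g0 : ∀ z ∈ T0, g z = 0 := fun z hz => hg0 hz
  have g1 : ∀ z ∈ T1, g z = 1 := fun z hz => hg1 hz
  have hgc : Continuous g := g.continuous
  have gp : g p1 = 0 := g0 _ (hpT (mem_connectedComponentIn hp1B))
  have gq : g q1 = 1 := g1 _ (hqT (mem_connectedComponentIn hq1B))
  -- the compact middle part
  set K' : Set P := (closure X ∩ closedBall a r1) ∩ {x | 1 / 3 ≤ g x ∧ g x ≤ 2 / 3} with hK'
  have hK'c : IsCompact K' := hcomp.inter_right
    ((isClosed_le continuous_const hgc).inter (isClosed_le hgc continuous_const))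
  have hK'X : K' ⊆ X := by
    rintro x ⟨⟨hx1, hx4⟩, hx2, hx3⟩
    by_contra hxX
    have hxb : x ∈ T0 ∪ T1 := by rw [hTB]; exact ⟨⟨hx1, hxX⟩, hx4⟩
    rcases hxb with h | h
    · rw [g0 x h] at hx2; norm_num at hx2
    · rw [g1 x h] at hx3; norm_num at hx3
  have hKim : IsClosed (D.im K') := by
    rw [D.im_eq, inter_eq_right.2 hK'X]
    exact (hK'c.image_of_continuousOn (D.hc.mono hK'X)).isClosed
  set γ : S2 → ℝ := fun z => max 0 (min 1 (3 * g (D.k z) - 1)) with hγ
  have hγc : ContinuousOn γ D.U := by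
    have h3 : ContinuousOn (fun z => g (D.k z)) D.U := hgc.comp_continuousOn D.kc
    have h4 : Continuous fun t : ℝ => max 0 (min 1 (3 * t - 1)) := by fun_prop
    exact h4.comp_continuousOn h3
  have hγ0 : ∀ z, g (D.k z) < 1 / 3 → γ z = 0 := by
    intro z hz
    show max 0 (min 1 (3 * g (D.k z) - 1)) = 0
    rw [max_eq_left]
    exact (min_le_right _ _).trans (by linarith)
  have hγ1 : ∀ z, 2 / 3 < g (D.k z) → γ z = 1 := by
    intro z hz
    show max 0 (min 1 (3 * g (D.k z) - 1)) = 1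
    rw [min_eq_left (by linarith), max_eq_right (by norm_num)]
  -- the connected middle part
  obtain ⟨m0, hm0⟩ := hMMc.nonempty
  set OM : Set S2 := D.im {x | s1 < dist a x ∧ dist a x < S1} with hOM
  have hdc : Continuous fun x : P => dist a x := by fun_prop
  have hOMo : IsOpen OM := by
    refine D.im_open ?_
    exact (isOpen_lt continuous_const hdc).inter (isOpen_lt hdc continuous_const)
  have hMMO : D.h '' MM ⊆ OM := by
    rintro _ ⟨x, hx, rfl⟩
    exact D.mem_im (hMM hx) (hMMd x hx)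
  have : LocallyConnectedSpace S2 :=
    ChartedSpace.locallyConnectedSpace (EuclideanSpace ℝ (Fin 2)) S2
  set W : Set S2 := connectedComponentIn OM (D.h m0) with hW
  have hWo : IsOpen W := hOMo.connectedComponentIn
  have hWc : IsConnected W :=
    isConnected_connectedComponentIn_iff.2 (hMMO ⟨m0, hm0, rfl⟩)
  have hWO : W ⊆ OM := connectedComponentIn_subset _ _
  have hMW : D.h '' MM ⊆ W :=
    (hMMc.isPreconnected.image _ (D.hc.mono hMM)).subset_connectedComponentIn ⟨m0, hm0, rfl⟩ hMMO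
  set L : Set S2 := Wᶜ with hL
  have hLcl : IsClosed L := hWo.isClosed_compl
  have hLc : IsConnected Lᶜ := by rw [hL, compl_compl]; exact hWc
  set Fs : Set S2 := D.im {x | R1 < dist a x} with hFs
  set Ns : Set S2 := D.im {x | dist a x < r1} with hNs
  have hFso : IsOpen Fs := D.im_open (isOpen_lt continuous_const hdc)
  have hNso : IsOpen Ns := D.im_open (isOpen_lt hdc continuous_const)
  have hNF : Disjoint Ns Fs := by
    rw [Set.disjoint_left]
    rintro z ⟨-, hz1⟩ ⟨-, hz2⟩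
    have h3 : dist a (D.k z) < r1 := hz1
    have h4 : R1 < dist a (D.k z) := hz2
    linarith
  have hLU : ∀ z ∈ L, z ∈ D.U → z ∈ Ns ∪ Fs := by
    intro z hz hzU
    by_cases h3 : dist a (D.k z) < r1
    · exact Or.inl ⟨hzU, h3⟩
    · by_cases h4 : R1 < dist a (D.k z)
      · exact Or.inr ⟨hzU, h4⟩
      · exfalso
        apply hz
        apply hMW
        exact ⟨D.k z, hMMs _ (D.km hzU) (not_lt.1 h3) (not_lt.1 h4), D.hk z hzU⟩
  set Q : S2 → ℂ := fun z => 2 * Real.pi * Complex.I * (γ z : ℂ) with hQ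
  have hQc : ContinuousOn Q D.U := by
    have : ContinuousOn (fun z => ((γ z : ℝ) : ℂ)) D.U :=
      Complex.continuous_ofReal.comp_continuousOn hγc
    exact continuousOn_const.mul this
  set φ : S2 → ℂ := fun z => if z ∈ Ns then Complex.exp (Q z) else 1 with hφ
  have hφK : ∀ z ∉ D.im K', φ z = 1 := by
    intro z hz
    by_cases hzN : z ∈ Ns
    · have hφz : φ z = Complex.exp (Q z) := by simp [hφ, hzN]
      rw [hφz]
      by_cases h3 : g (D.k z) < 1 / 3
      · simp [hQ, hγ0 z h3]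
      · by_cases h4 : 2 / 3 < g (D.k z)
        · simp only [hQ, hγ1 z h4, Complex.ofReal_one, mul_one]
          exact Complex.exp_two_pi_mul_I
        · exfalso
          apply hz
          refine ⟨hzN.1, ⟨subset_closure (D.km hzN.1), ?_⟩, not_lt.1 h3, not_lt.1 h4⟩
          have h5 : dist a (D.k z) < r1 := hzN.2
          rw [mem_closedBall, dist_comm]; exact h5.le
    · simp [hφ, hzN]
  have hφc : ContinuousOn φ L := by
    intro z hz
    by_cases hzU : z ∈ D.U
    · rcases hLU z hz hzU with h | h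
      · have hc : ContinuousAt (fun w => Complex.exp (Q w)) z :=
          (hQc.continuousAt (D.hU.mem_nhds hzU)).cexp
        refine (hc.congr ?_).continuousWithinAt
        filter_upwards [hNso.mem_nhds h] with w hw
        simp [hφ, hw]
      · have hc : ContinuousAt (fun _ : S2 => (1 : ℂ)) z := continuousAt_const
        refine (hc.congr ?_).continuousWithinAt
        filter_upwards [hFso.mem_nhds h] with w hw
        have : w ∉ Ns := fun h' => Set.disjoint_left.1 hNF h' hw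
        simp [hφ, this]
    · have hc : ContinuousAt (fun _ : S2 => (1 : ℂ)) z := continuousAt_const
      refine (hc.congr ?_).continuousWithinAt
      filter_upwards [hKim.isOpen_compl.mem_nhds (fun h => hzU h.1)] with w hw
      exact (hφK w hw).symm
  have hφ0 : ∀ z ∈ L, φ z ≠ 0 := by
    intro z _
    by_cases h : z ∈ Ns
    · simp [hφ, h]
    · simp [hφ, h]
  obtain ⟨H, hHc, hH⟩ := log_sphere hLcl hLc hφc hφ0
  have hcl : ∀ (A : Set S2) (c : ℂ), A ⊆ L → (∀ z ∈ A, H z = c) → ∀ z ∈ closure A, H z = c := by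
    intro A c hAL hAc z hz
    have h3 : IsClosed (L ∩ H ⁻¹' {c}) := hHc.preimage_isClosed_of_isClosed hLcl isClosed_singleton
    have h4 : A ⊆ L ∩ H ⁻¹' {c} := fun w hw => ⟨hAL hw, hAc w hw⟩
    exact (closure_minimal h4 h3 hz).2
  -- the near and far connected sets
  have hNNL : D.h '' NN ⊆ L := by
    rintro _ ⟨x, hx, rfl⟩ hxW
    have h3 : s1 < dist a (D.k (D.h x)) := (hWO hxW).2.1
    rw [D.kh x (hNN hx)] at h3
    exact absurd (hNNd x hx) (not_le.2 h3)
  have hFFL : D.h '' FF ⊆ L := by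
    rintro _ ⟨x, hx, rfl⟩ hxW
    have h3 : dist a (D.k (D.h x)) < S1 := (hWO hxW).2.2
    rw [D.kh x (hFF hx)] at h3
    exact absurd (hFFd x hx) (not_le.2 h3)
  have hNNU : D.h '' NN ⊆ D.U := by
    rintro _ ⟨x, hx, rfl⟩
    exact D.hm (hNN hx)
  have hNconst : ∀ z ∈ D.h '' NN, ∀ w ∈ D.h '' NN, H z - Q z = H w - Q w := by
    intro z hz w hw
    refine eq_of_exp_eq_one (u := fun z => H z - Q z) (hNNc.image _ (D.hc.mono hNN))
      ((hHc.mono hNNL).sub (hQc.mono hNNU)) ?_ hz hw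
    intro z hz
    have hzN : z ∈ Ns := by
      obtain ⟨x, hx, rfl⟩ := hz
      refine D.mem_im (hNN hx) ?_
      exact lt_of_le_of_lt (hNNd x hx) hr
    show Complex.exp (H z - Q z) = 1
    rw [Complex.exp_sub, hH _ (hNNL hz)]
    simp only [hφ, hzN, if_true]
    exact div_self (Complex.exp_ne_zero _)
  have hFconst : ∀ z ∈ D.h '' FF, ∀ w ∈ D.h '' FF, H z = H w := by
    intro z hz w hw
    refine eq_of_exp_eq_one (u := H) (hFFc.image _ (D.hc.mono hFF)) (hHc.mono hFFL) ?_ hz hw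
    intro z hz
    have hzN : z ∉ Ns := by
      obtain ⟨x, hx, rfl⟩ := hz
      rintro ⟨-, h3⟩
      have h4 : dist a (D.k (D.h x)) < r1 := h3
      rw [D.kh x (hFF hx)] at h4
      have := hFFd x hx
      linarith
    rw [hH _ (hFFL hz)]
    simp [hφ, hzN]
  -- traces
  obtain ⟨ZE, hZEc, hZEU, hZEm, -⟩ := trace D h1 hA hE ⟨p1, hp1⟩ hEb
  obtain ⟨ZF, hZFc, hZFU, hZFm, -⟩ := trace D h1 hA hF ⟨q1, hq1⟩ hFb
  have hUL : ∀ z ∉ D.U, z ∈ L := fun z hz hzW => hz (hWO hzW).1
  have hZconst : ∀ Z : Set S2, IsPreconnected Z → (∀ z ∈ Z, z ∉ D.U) → ∀ z ∈ Z, ∀ w ∈ Z,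
      H z = H w := by
    intro Z hZ hZU z hz w hw
    refine eq_of_exp_eq_one (u := H) hZ (hHc.mono fun z hz => hUL z (hZU z hz)) ?_ hz hw
    intro z hz
    rw [hH z (hUL z (hZU z hz))]
    exact hφK z (fun h => hZU z hz h.1)
  -- the values near `p1` and `q1`
  have hsub : ∀ t : P, ∀ η : ℝ, ∀ S : Set P, X ∩ ball t ρ ⊆ S →
      D.im (ball t (min ρ η)) ⊆ D.h '' S := by
    intro t η S ht
    rw [D.im_eq]
    refine image_mono ?_
    rintro x ⟨hx1, hx2⟩
    exact ht ⟨hx1, ball_subset_ball (min_le_left _ _) hx2⟩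
  obtain ⟨η0, hη0, hη0s⟩ := Metric.isOpen_iff.1 (isOpen_lt hgc continuous_const :
    IsOpen {x | g x < 1 / 3}) p1 (by show g p1 < 1 / 3; rw [gp]; norm_num)
  obtain ⟨η1, hη1, hη1s⟩ := Metric.isOpen_iff.1 (isOpen_lt continuous_const hgc :
    IsOpen {x | 2 / 3 < g x}) q1 (by show 2 / 3 < g q1; rw [gq]; norm_num)
  obtain ⟨z1, hz1, hz1'⟩ := hZEm p1 hp1 (min ρ η0) (lt_min hρ hη0)
  obtain ⟨z2, hz2, hz2'⟩ := hZFm q1 hq1 (min ρ η1) (lt_min hρ hη1)
  obtain ⟨z3, hz3, hz3'⟩ := hZEm p2 hp2 (min ρ 1) (lt_min hρ one_pos)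
  obtain ⟨z4, hz4, hz4'⟩ := hZFm q2 hq2 (min ρ 1) (lt_min hρ one_pos)
  have hn1 := hsub p1 η0 NN hp1N
  have hn2 := hsub q1 η1 NN hq1N
  have hn3 := hsub p2 1 FF hp2F
  have hn4 := hsub q2 1 FF hq2F
  have hne1 : (D.im (ball p1 (min ρ η0))).Nonempty := closure_nonempty_iff.1 ⟨z1, hz1'⟩
  obtain ⟨w1, hw1⟩ := hne1
  have hne3 : (D.im (ball p2 (min ρ 1))).Nonempty := closure_nonempty_iff.1 ⟨z3, hz3'⟩
  obtain ⟨w3, hw3⟩ := hne3
  set c : ℂ := H w1 - Q w1 with hcdef
  have v1 : H z1 = c := by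
    refine hcl _ c (hn1.trans hNNL) ?_ z1 hz1'
    intro z hz
    have h3 := hNconst z (hn1 hz) w1 (hn1 hw1)
    have h4 : Q z = 0 := by
      simp [hQ, hγ0 z (hη0s (ball_subset_ball (min_le_right _ _) hz.2))]
    rw [h4, sub_zero] at h3
    exact h3
  have v2 : H z2 = c + 2 * Real.pi * Complex.I := by
    refine hcl _ _ (hn2.trans hNNL) ?_ z2 hz2'
    intro z hz
    have h3 := hNconst z (hn2 hz) w1 (hn1 hw1)
    have h4 : Q z = 2 * Real.pi * Complex.I := by
      simp [hQ, hγ1 z (hη1s (ball_subset_ball (min_le_right _ _) hz.2))]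
    rw [h4] at h3
    rw [hcdef, ← h3]; ring
  have v3 : H z3 = H w3 := hcl _ _ (hn3.trans hFFL)
    (fun z hz => hFconst z (hn3 hz) w3 (hn3 hw3)) z3 hz3'
  have v4 : H z4 = H w3 := hcl _ _ (hn4.trans hFFL)
    (fun z hz => hFconst z (hn4 hz) w3 (hn3 hw3)) z4 hz4'
  have e1 := hZconst ZE hZEc hZEU z1 hz1 z3 hz3
  have e2 := hZconst ZF hZFc hZFU z2 hz2 z4 hz4
  have h0 : (2 * Real.pi * Complex.I : ℂ) = 0 := by
    linear_combination v1 - v2 + e2 - e1 + v4 - v3
  exact Complex.two_pi_I_ne_zero h0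

/-- boundary components which are both large cannot be close to each other -/
theorem pos_aux (hc : ∀ (a : P) (r : ℝ), IsCompact (closure X ∩ closedBall a r))
    (hX : IsSphereDomain X) {lam : ℝ} (h1 : 1 ≤ lam)
    (hA : ALLC X lam) {E F : Set P} (hE : IsBdryComponent X E) (hF : IsBdryComponent X F)
    (hne : E ≠ F) {x0 y0 : P} (hx0 : x0 ∈ E) (hy0 : y0 ∈ F) {D : ℝ} (hD0 : 0 < D)
    (hED : ∀ a : P, ∃ p ∈ E, D / 4 < dist a p) (hFD : ∀ a : P, ∃ p ∈ F, D / 4 < dist a p) :
    D ≤ 100 * lam ^ 4 * dist x0 y0 := by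
  by_contra hcon
  rw [not_le] at hcon
  obtain ⟨Da⟩ := exists_dat hX
  obtain ⟨p, hp, rfl⟩ := hE
  obtain ⟨q, hq, rfl⟩ := hF
  set E := connectedComponentIn (bdry X) p with hEdef
  set F := connectedComponentIn (bdry X) q with hFdef
  have hEb : E ⊆ bdry X := connectedComponentIn_subset _ _
  have hFb : F ⊆ bdry X := connectedComponentIn_subset _ _
  set t : ℝ := 1 / (100 * lam ^ 4) * D with ht
  have hl0 : 0 < lam := by linarith
  have hl2 : 1 ≤ lam ^ 2 := one_le_pow₀ h1
  have hl4 : 1 ≤ lam ^ 4 := one_le_pow₀ h1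
  have ht0 : 0 < t := by positivity
  have htD : 100 * lam ^ 4 * t = D := by
    rw [ht]; field_simp
  have hdt : dist x0 y0 < t := by
    rw [← htD] at hcon
    have h3 : (0 : ℝ) < 100 * lam ^ 4 := by positivity
    exact lt_of_mul_lt_mul_left hcon h3.le
  -- the center
  obtain ⟨a, haX, hax⟩ := Metric.mem_closure_iff.1 (hEb hx0).1 t ht0
  rw [dist_comm] at hax
  have hax0 : 0 < dist a x0 := dist_pos.2 fun h => (hEb hx0).2 (h ▸ haX)
  have hay0 : 0 < dist a y0 := dist_pos.2 fun h => (hFb hy0).2 (h ▸ haX)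
  have hay : dist a y0 < 2 * t := by
    have := dist_triangle a x0 y0
    linarith
  set r₀ : ℝ := 3 * t with hr₀
  set R₀ : ℝ := D / 4 with hR₀
  have hr₀0 : 0 < r₀ := by positivity
  have hR₀0 : 0 < R₀ := by positivity
  set s1 : ℝ := lam * r₀ with hs1
  set r1 : ℝ := 2 * lam ^ 2 * r₀ with hr1
  set R1 : ℝ := R₀ / (2 * lam ^ 2) with hR1
  set S1 : ℝ := R₀ / lam with hS1
  have hs1r1 : s1 < r1 := by
    rw [hs1, hr1]
    have : lam ≤ lam ^ 2 := by nlinarith
    nlinarith
  have hr₀r1 : r₀ ≤ r1 := by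
    rw [hr1]
    nlinarith
  have hr1R1 : r1 < R1 := by
    rw [hr1, hR1, lt_div_iff₀ (by positivity)]
    have : 2 * lam ^ 2 * r₀ * (2 * lam ^ 2) = 12 * lam ^ 4 * t := by rw [hr₀]; ring
    rw [this, hR₀, ← htD]
    have : 0 < lam ^ 4 * t := by positivity
    nlinarith
  have hR1S1 : R1 < S1 := by
    rw [hR1, hS1]
    apply div_lt_div_of_pos_left hR₀0 hl0
    nlinarith
  have hR1R₀ : R1 ≤ R₀ := by
    rw [hR1]
    apply div_le_self hR₀0.le
    nlinarith
  -- points far away
  obtain ⟨p2, hp2, hp2a⟩ := hED a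
  obtain ⟨q2, hq2, hq2a⟩ := hFD a
  obtain ⟨n0, hn0X, hn0a, -, hn0d⟩ := Da.third haX hr₀0 a
  obtain ⟨f0, hf0X, hf0⟩ := Metric.mem_closure_iff.1 (hEb hp2).1 (dist a p2 - R₀) (by linarith)
  have hf0d : R₀ ≤ dist a f0 := by
    have := dist_triangle a f0 p2
    rw [dist_comm f0 p2] at this
    linarith
  obtain ⟨m0, hm0X, hm0⟩ : ∃ m ∈ X, dist a m = r1 := by
    have h3 := (Da.isConnected).isPreconnected.intermediate_value haX hf0X
      (f := fun x => dist a x) (by fun_prop)
    have h4 : r1 ∈ Icc (dist a a) (dist a f0) := by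
      rw [dist_self]
      exact ⟨by positivity, by linarith⟩
    obtain ⟨m, hm, hm'⟩ := h3 h4
    exact ⟨m, hm, hm'⟩
  set NN : Set P := connectedComponentIn (X ∩ {x | dist a x ≤ s1}) n0 with hNN
  set FF : Set P := connectedComponentIn (X ∩ {x | S1 ≤ dist a x}) f0 with hFF
  set MM : Set P := connectedComponentIn (X ∩ {x | s1 < dist a x ∧ dist a x < S1}) m0 with hMM
  have hNNX : NN ⊆ X ∩ {x | dist a x ≤ s1} := connectedComponentIn_subset _ _
  have hFFX : FF ⊆ X ∩ {x | S1 ≤ dist a x} := connectedComponentIn_subset _ _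
  have hMMX : MM ⊆ X ∩ {x | s1 < dist a x ∧ dist a x < S1} := connectedComponentIn_subset _ _
  have hNNs : ∀ x ∈ X, x ≠ a → dist a x < r₀ → x ∈ NN := by
    intro x hxX hxa hxd
    have h3 : 0 < dist a x := dist_pos.2 (Ne.symm hxa)
    have h4 : 0 < dist a n0 := dist_pos.2 (Ne.symm hn0a)
    obtain ⟨K, hKX, -, hKc, hxK, hyK, hK⟩ := hA a haX (min (dist a x) (dist a n0)) r₀
      (lt_min h3 h4) (lt_of_le_of_lt (min_le_left _ _) hxd) n0 hn0X x hxX (min_le_right _ _)
      hn0d.le (min_le_left _ _) hxd.le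
    have hKN : K ⊆ X ∩ {x | dist a x ≤ s1} := fun z hz => ⟨hKX hz, (hK z hz).2⟩
    exact hKc.isPreconnected.subset_connectedComponentIn hxK hKN hyK
  have hFFs : ∀ x ∈ X, R₀ ≤ dist a x → x ∈ FF := by
    intro x hxX hxd
    obtain ⟨K, hKX, -, hKc, hxK, hyK, hK⟩ := hA a haX R₀ (max (dist a x) (dist a f0) + 1)
      hR₀0 (by have := le_max_left (dist a x) (dist a f0); linarith) f0 hf0X x hxX hf0d
      (by have := le_max_right (dist a x) (dist a f0); linarith) hxd
      (by have := le_max_left (dist a x) (dist a f0); linarith)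
    have hKN : K ⊆ X ∩ {x | S1 ≤ dist a x} := fun z hz => ⟨hKX hz, (hK z hz).1⟩
    exact hKc.isPreconnected.subset_connectedComponentIn hxK hKN hyK
  have hMMs : ∀ x ∈ X, r1 ≤ dist a x → dist a x ≤ R1 → x ∈ MM := by
    intro x hxX hxr hxR
    obtain ⟨K, hKX, -, hKc, hxK, hyK, hK⟩ := hA a haX r1 R1 (by positivity) hr1R1 m0 hm0X x hxX
      hm0.ge (by linarith) hxr hxR
    have hKN : K ⊆ X ∩ {x | s1 < dist a x ∧ dist a x < S1} := by
      refine fun z hz => ⟨hKX hz, ?_, ?_⟩
      · refine lt_of_lt_of_le ?_ (hK z hz).1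
        rw [hs1, hr1, lt_div_iff₀ hl0]
        have : 0 < lam ^ 2 * r₀ := by positivity
        nlinarith
      · refine lt_of_le_of_lt (hK z hz).2 ?_
        rw [hR1, hS1, lt_div_iff₀ hl0]
        have : lam * (R₀ / (2 * lam ^ 2)) * lam = R₀ / 2 := by field_simp
        rw [this]; linarith
    exact hKc.isPreconnected.subset_connectedComponentIn hxK hKN hyK
  set ρ : ℝ := min (min (min (dist a x0) (r₀ - dist a x0)) (min (dist a y0) (r₀ - dist a y0)))
    (min (dist a p2 - R₀) (dist a q2 - R₀)) with hρ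
  have hρ0 : 0 < ρ := by
    refine lt_min (lt_min (lt_min hax0 ?_) (lt_min hay0 ?_)) (lt_min ?_ ?_) <;> linarith
  have b1 : ρ ≤ dist a x0 := (min_le_left _ _).trans ((min_le_left _ _).trans (min_le_left _ _))
  have b2 : ρ ≤ r₀ - dist a x0 :=
    (min_le_left _ _).trans ((min_le_left _ _).trans (min_le_right _ _))
  have b3 : ρ ≤ dist a y0 := (min_le_left _ _).trans ((min_le_right _ _).trans (min_le_left _ _))
  have b4 : ρ ≤ r₀ - dist a y0 :=
    (min_le_left _ _).trans ((min_le_right _ _).trans (min_le_right _ _))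
  have b5 : ρ ≤ dist a p2 - R₀ := (min_le_right _ _).trans (min_le_left _ _)
  have b6 : ρ ≤ dist a q2 - R₀ := (min_le_right _ _).trans (min_le_right _ _)
  have near : ∀ w : P, ρ ≤ dist a w → ρ ≤ r₀ - dist a w → X ∩ ball w ρ ⊆ NN := by
    rintro w hw1 hw2 x ⟨hxX, hxw⟩
    rw [mem_ball] at hxw
    refine hNNs x hxX ?_ ?_
    · rintro rfl
      linarith
    · have := dist_triangle a w x
      rw [dist_comm w x] at this
      linarith
  have far : ∀ w : P, ρ ≤ dist a w - R₀ → X ∩ ball w ρ ⊆ FF := by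
    rintro w hw x ⟨hxX, hxw⟩
    rw [mem_ball] at hxw
    refine hFFs x hxX ?_
    have := dist_triangle a x w
    linarith
  have hMMc : IsConnected MM := by
    rw [hMM, isConnected_connectedComponentIn_iff]
    exact ⟨hm0X, by rw [hm0]; exact hs1r1, by rw [hm0]; linarith⟩
  have hsep : ∀ K ⊆ bdry X, IsPreconnected K → x0 ∈ K → y0 ∉ K := by
    intro K hKb hKc hxK hyK
    apply hne
    have h3 : K ⊆ connectedComponentIn (bdry X) x0 := hKc.subset_connectedComponentIn hxK hKb
    have h4 : E = connectedComponentIn (bdry X) x0 := connectedComponentIn_eq hx0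
    have h5 : F = connectedComponentIn (bdry X) y0 := connectedComponentIn_eq hy0
    rw [h4, h5]
    exact connectedComponentIn_eq (h3 hyK)
  exact core (lam := lam) Da h1 hA (E := E) (F := F) isPreconnected_connectedComponentIn hEb
    isPreconnected_connectedComponentIn hFb hs1r1 hr1R1 hR1S1 (hc a r1)
    (fun x hx => (hNNX hx).1) isPreconnected_connectedComponentIn (fun x hx => (hNNX hx).2)
    (fun x hx => (hFFX hx).1) isPreconnected_connectedComponentIn (fun x hx => (hFFX hx).2)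
    (fun x hx => (hMMX hx).1) hMMc (fun x hx => (hMMX hx).2) hMMs hx0 hp2 hy0 hq2
    (by linarith) (by linarith) hsep hρ0 (near x0 b1 b2) (near y0 b3 b4) (far p2 b5) (far q2 b6)

/-- a set of large diameter has points far from every point -/
lemma far_point {E : Set P} {D : ℝ} (hD0 : 0 < D) (hD : ENNReal.ofReal D ≤ ediam E) (a : P) :
    ∃ p ∈ E, D / 4 < dist a p := by
  by_contra hcon
  push Not at hcon
  have h3 : ediam E ≤ ENNReal.ofReal (D / 2) := by
    refine ediam_le fun x hx y hy => ?_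
    rw [edist_dist]
    apply ENNReal.ofReal_le_ofReal
    have h4 := hcon x hx
    have h5 := hcon y hy
    have h6 := dist_triangle x a y
    rw [dist_comm x a] at h6
    linarith
  have h7 := hD.trans h3
  rw [ENNReal.ofReal_le_ofReal_iff (by positivity)] at h7
  linarith

/-- **Positive theorem.** Quantitative relative separation of the boundary components of an ALLC
metric space homeomorphic to a domain of the sphere, if the closed balls of the completion are
compact. -/
theorem pos (hc : ∀ (a : P) (r : ℝ), IsCompact (closure X ∩ closedBall a r))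
    (hX : IsSphereDomain X) {lam : ℝ} (h1 : 1 ≤ lam)
    (hA : ALLC X lam) {E F : Set P} (hE : IsBdryComponent X E) (hF : IsBdryComponent X F)
    (hne : E ≠ F) {x0 y0 : P} (hx0 : x0 ∈ E) (hy0 : y0 ∈ F) :
    min (ediam E) (ediam F) ≤ ENNReal.ofReal (100 * lam ^ 4) * edist x0 y0 := by
  by_contra hcon
  rw [not_le, edist_dist, ← ENNReal.ofReal_mul (by positivity)] at hcon
  obtain ⟨D, hD1, hD2⟩ := ENNReal.lt_iff_exists_nnreal_btwn.1 hcon
  have hDr : ((D : NNReal) : ENNReal) = ENNReal.ofReal (D : ℝ) := by simp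
  rw [hDr] at hD1 hD2
  have h3 : 100 * lam ^ 4 * dist x0 y0 < (D : ℝ) := by
    by_contra h
    rw [not_lt] at h
    exact absurd hD1 (not_lt.2 (ENNReal.ofReal_le_ofReal h))
  have h4 : 0 ≤ 100 * lam ^ 4 * dist x0 y0 := by positivity
  have hD0 : 0 < (D : ℝ) := by linarith
  have h5 := pos_aux hc hX h1 hA hE hF hne hx0 hy0 hD0
    (far_point hD0 (hD2.le.trans (min_le_left _ _)))
    (far_point hD0 (hD2.le.trans (min_le_right _ _)))
  linarith

end

end Pool.Agent.N283.AL
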