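import Pool.Agent.N283.AL.Log

/-!
# Separation on the sphere
-/

set_option autoImplicit false

open Set Topology Metric Filter

namespace Pool.Agent.N283.AL

open Pool.Agent.Helper486.Topo

/-- A continuous function whose values are integer multiples of `2πi` on a preconnected set is
constant. -/
theorem eq_of_exp_eq_one {X : Type*} [TopologicalSpace X] {S : Set X} (hS : IsPreconnected S)
    {u : X → ℂ} (hu : ContinuousOn u S) (h1 : ∀ x ∈ S, Complex.exp (u x) = 1) {x y : X}
    (hx : x ∈ S) (hy : y ∈ S) : u x = u y := by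
  have hd : IsDiscrete ((AddSubgroup.zmultiples (2 * Real.pi * Complex.I) : AddSubgroup ℂ) :
      Set ℂ) := ⟨NormedSpace.discreteTopology_zmultiples _⟩
  have hm : MapsTo u S ((AddSubgroup.zmultiples (2 * Real.pi * Complex.I) : AddSubgroup ℂ) :
      Set ℂ) := by
    intro z hz
    obtain ⟨n, hn⟩ := Complex.exp_eq_one_iff.mp (h1 z hz)
    rw [SetLike.mem_coe, AddSubgroup.mem_zmultiples_iff]
    exact ⟨n, by rw [hn]; simp⟩
  exact hS.constant_of_mapsTo hd hu hm hx hy

instance : ConnectedSpace S2 := by
  have hr : 1 < Module.rank ℝ (EuclideanSpace ℝ (Fin 3)) := by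
    rw [← Module.finrank_eq_rank]
    simp
  exact isConnected_iff_connectedSpace.1 (isConnected_sphere hr 0 zero_le_one)

end Pool.Agent.N283.AL
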